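import Pool.Agent.H95.DR.Targets

/-!
# Row AFM: the Epstein zeta function of the form of a line
-/

set_option autoImplicit false

open MeasureTheory Set Filter NumberField
open scoped Real nonZeroDivisors Matrix MatrixGroups
open Pool.Agent.H31.CN Pool.Agent.H89.FM Pool.Agent.H61.FM Pool.Agent.H89.FC Pool.Agent.H95.FC
open Pool.Agent.H89.DF Pool.Agent.H95.DR

namespace Pool.Agent.H58.DF

theorem pf_FRMr (hPBG : T_PBG) (hPBT : T_PBT) : T_FRMr := by
  classical
  intro K _ _ σ σ' I α β Q hI hOB κ m s n f V W L τ hn hf hVW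
  obtain ⟨h1, h2, -, -⟩ := hPBT K σ σ'
  have hPB := h1 I α β Q hI hOB
  obtain ⟨hPB', hlv⟩ := h2 _ α β Q f V W hPB hf hVW
  obtain ⟨hd, -, hz⟩ := hPBG K σ σ' _ α β Q hPB
  obtain ⟨hd', -, hz'⟩ := hPBG K σ σ' _ _ _ _ hPB'
  obtain ⟨-, -, hz⟩ := hz τ
  obtain ⟨-, -, hz'⟩ := hz' τ
  have hV : lv K α β V ≠ 0 := by
    intro h0
    have := hOB.inj V h0
    rw [this] at hVW
    simp [det] at hVW
  have hα : α ≠ 0 := by
    intro h0
    have h3 : lv K α β (1, 0) = 0 := by unfold lv; simp [h0]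
    have := hOB.inj _ h3
    simp at this
  have hf0 : (f : ℤ) ≠ 0 := by positivity
  have hio : ∀ v : ℤ × ℤ, io f V W v = 0 → v = 0 := by
    intro v hv
    have e1 : v.1 * V.1 + f * v.2 * W.1 = 0 := congrArg Prod.fst hv
    have e2 : v.1 * V.2 + f * v.2 * W.2 = 0 := congrArg Prod.snd hv
    unfold det at hVW
    have e3 : v.1 = 0 := by linear_combination W.2 * e1 - W.1 * e2 - v.1 * hVW
    have e4 : (f : ℤ) * v.2 = 0 := by
      linear_combination (-V.2) * e1 + V.1 * e2 - f * v.2 * hVW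
    exact Prod.ext e3 ((mul_eq_zero.1 e4).resolve_left hf0)
  have hinj : Function.Injective (io f V W) := by
    rw [injective_iff_map_eq_zero]
    exact hio
  have hz0 : ∀ v, io f V W v = 0 ↔ v = 0 := fun v =>
    ⟨hio v, fun h => by rw [h, map_zero]⟩
  have hm : ∀ v, io f V W v ∈ L.map (io f V W) ↔ v ∈ L := by
    intro v
    constructor
    · rintro ⟨w, hw, hwv⟩
      exact hinj hwv ▸ hw
    · intro h
      exact ⟨v, h, rfl⟩
  have hval : ∀ v, val (fl f Q V W) v = val Q (io f V W v) := by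
    intro v
    have e : io f V W v = (v.1 * V.1 + f * v.2 * W.1, v.1 * V.2 + f * v.2 * W.2) := rfl
    rw [e]
    unfold fl val bl
    ring
  have hdsc : (dsc (fl f Q V W) : ℝ) = (f : ℝ) ^ 2 * dsc Q := by
    have e : dsc (fl f Q V W) = (f : ℤ) ^ 2 * dsc Q * det V W ^ 2 := by
      unfold fl dsc val bl det
      ring
    rw [hVW] at e
    rw [e]
    push_cast
    ring
  have hsq : Real.sqrt (-(dsc (fl f Q V W) : ℝ)) = f * Real.sqrt (-(dsc Q : ℝ)) := by
    have hf0' : (0 : ℝ) ≤ f := Nat.cast_nonneg f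
    rw [hdsc, show -((f : ℝ) ^ 2 * (dsc Q : ℝ)) = (f : ℝ) ^ 2 * (-(dsc Q : ℝ)) by ring,
      Real.sqrt_mul (sq_nonneg _), Real.sqrt_sq hf0']
  have key : ∀ m' : ℤ, wp σ σ' τ (lv K α β V) ^ m' * Em m' s n L
      (zp σ σ' τ (lv K α β V) ((f : 𝓞 K) * lv K α β W)).re
      (zp σ σ' τ (lv K α β V) ((f : 𝓞 K) * lv K α β W)).im =
      wp σ σ' τ α ^ m' * Em m' s (n * f) (L.map (io f V W)) (zp σ σ' τ α β).re
        (zp σ σ' τ α β).im := by
    intro m'
    unfold Em
    set x := (zp σ σ' τ α β).re with hx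
    set y := (zp σ σ' τ α β).im with hy
    set x' := (zp σ σ' τ (lv K α β V) ((f : 𝓞 K) * lv K α β W)).re with hx'
    set y' := (zp σ σ' τ (lv K α β V) ((f : 𝓞 K) * lv K α β W)).im with hy'
    set F : ℤ × ℤ → ℂ := fun u => if u ∈ L.map (io f V W) ∧ u ≠ 0 then
      an x y u ^ m' *
        Kmc m'.natAbs 1 s ((qz x y u / ((n * f : ℕ) : ℝ) : ℝ) : ℂ) else 0 with hF
    have e : ∑' u, F u = ∑' v, F (io f V W v) := by
      refine (hinj.tsum_eq ?_).symm
      intro u hu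
      by_contra hr
      apply hu
      simp only [hF]
      rw [if_neg]
      rintro ⟨⟨w, hw, hwu⟩, -⟩
      exact hr ⟨w, hwu⟩
    have e2 : ∀ (A B : ℂ), A = B → wp σ σ' τ α ^ m' * B = wp σ σ' τ α ^ m' * A := by
      rintro A B rfl
      rfl
    refine Eq.trans ?_ (e2 _ _ e)
    rw [← tsum_mul_left, ← tsum_mul_left]
    refine tsum_congr fun v => ?_
    simp only [hF, hm, ne_eq, hz0]
    by_cases h : v ∈ L ∧ ¬ v = 0
    · rw [if_pos h, if_pos h]
      have hio0 : io f V W v ≠ 0 := fun h0 => h.2 (hio v h0)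
      have hl : lv K α β (io f V W v) ≠ 0 := fun h0 => hio0 (hOB.inj _ h0)
      have hl' : lv K (lv K α β V) ((f : 𝓞 K) * lv K α β W) v ≠ 0 := by
        rw [hlv v]; exact hl
      obtain ⟨-, a2, a3⟩ := hz (io f V W v) hl
      obtain ⟨-, b2, b3⟩ := hz' v hl'
      rw [hlv v] at b2 b3
      rw [hval v, hsq] at b3
      have c1 : qz x' y' v / (n : ℝ) = qz x y (io f V W v) / ((n * f : ℕ) : ℝ) := by
        rw [a3, b3]
        push_cast
        rw [div_div, div_div]
        congr 1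
        ring
      rw [c1, ← mul_assoc, ← mul_assoc, ← mul_zpow, ← mul_zpow, a2, b2]
    · rw [if_neg h, if_neg h, mul_zero, mul_zero]
  unfold Fr
  rw [key m, mul_assoc, key (-m), ← mul_assoc]

end Pool.Agent.H58.DF
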