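import Pool.Agent.H95.DR.Targets2
import Pool.Agent.H29.DF.EXE

/-!
# Row ATF: the twisted second moment of the `L`-functions, assembly
-/

set_option autoImplicit false

open MeasureTheory Set Filter NumberField
open scoped Real nonZeroDivisors Matrix MatrixGroups
open Pool.Agent.H31.CN Pool.Agent.H89.FM Pool.Agent.H61.FM Pool.Agent.H89.FC Pool.Agent.H95.FC
open Pool.Agent.H89.DF Pool.Agent.H95.DR

namespace Pool.Agent.H58.DF

theorem famr_sub {K : ℕ → Type} [∀ D, Field (K D)] [∀ D, NumberField (K D)]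
    {σ σ' : ∀ D, K D →+* ℝ} {S S' : Finset (IXr K)} {f κ : IXr K → ℕ} {ν : IXr K → ℝ}
    {F : IXr K → ℂ → ℂ} {a b V : ℝ} (h : Famr K σ σ' S f κ ν F a b V) (hS : S' ⊆ S) :
    Famr K σ σ' S' f κ ν F a b V :=
  ⟨fun x hx => h.q x (hS hx), fun x hx => h.rq x (hS hx), fun x hx => h.ch x (hS hx),
    fun x hx => h.lf x (hS hx), fun x hx => h.nu x (hS hx)⟩

theorem famr_zero {K : ℕ → Type} [∀ D, Field (K D)] [∀ D, NumberField (K D)]
    {σ σ' : ∀ D, K D →+* ℝ} {S : Finset (IXr K)} {f κ : IXr K → ℕ} {ν : IXr K → ℝ}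
    {F : IXr K → ℂ → ℂ} {a b V : ℝ} (h : Famr K σ σ' S f κ ν F a b V) (ha : 0 ≤ a) :
    Famr K σ σ' S f κ ν F 0 b V :=
  ⟨fun x hx => ⟨ha.trans (h.q x hx).1, (h.q x hx).2⟩, fun x hx => h.rq x hx,
    fun x hx => h.ch x hx, fun x hx => h.lf x hx, fun x hx => h.nu x hx⟩

theorem log_pow_le (k : ℕ) (e : ℝ) (he : 0 < e) : ∃ C : ℝ, 0 < C ∧ ∀ X : ℝ, 1 ≤ X →
    Real.log X ^ k ≤ C * X ^ e := by
  set a : ℝ := e / (k + 1) with ha
  have ha0 : 0 < a := by positivity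
  refine ⟨(1 / a) ^ k, by positivity, fun X hX => ?_⟩
  have hX0 : 0 < X := by linarith
  have h1 : Real.log X ≤ X ^ a / a := Real.log_le_rpow_div hX0.le ha0
  have h2 : a * k ≤ e := by
    rw [ha, div_mul_eq_mul_div, div_le_iff₀ (by positivity)]
    nlinarith
  calc Real.log X ^ k ≤ (X ^ a / a) ^ k := pow_le_pow_left₀ (Real.log_nonneg hX) h1 k
    _ = (1 / a) ^ k * (X ^ a) ^ k := by rw [div_eq_mul_one_div, mul_pow, mul_comm]
    _ = (1 / a) ^ k * X ^ (a * k) := by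
        rw [← Real.rpow_natCast (X ^ a) k, ← Real.rpow_mul hX0.le]
    _ ≤ (1 / a) ^ k * X ^ e := by
        have := Real.rpow_le_rpow_of_exponent_le hX h2
        gcongr

/-- the discriminant and the conductor are bounded by the level -/
theorem lvr_le {K : ℕ → Type} [∀ D, Field (K D)] [∀ D, NumberField (K D)]
    {σ σ' : ∀ D, K D →+* ℝ} {S : Finset (IXr K)} {f κ : IXr K → ℕ} {ν : IXr K → ℝ}
    {F : IXr K → ℂ → ℂ} {a b V : ℝ} (h : Famr K σ σ' S f κ ν F a b V) (x : IXr K) (hx : x ∈ S) :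
    1 ≤ x.1 ∧ 1 ≤ f x ∧ (x.1 : ℝ) ≤ b ∧ (f x : ℝ) ≤ b := by
  have h1 : 1 ≤ x.1 := (h.rq x hx).pos
  have h2 : 1 ≤ f x := (h.ch x hx).pos
  have h1' : (1 : ℝ) ≤ x.1 := by exact_mod_cast h1
  have h2' : (1 : ℝ) ≤ f x := by exact_mod_cast h2
  have h3 := (h.q x hx).2
  unfold lvr at h3
  have h4 : (1 : ℝ) ≤ (f x : ℝ) ^ 2 := by nlinarith
  refine ⟨h1, h2, ?_, ?_⟩
  · nlinarith
  · nlinarith

theorem pf_TMFr (hTMG : T_TMGr) (hCRL : T_CRL) (hEXF : Pool.Agent.H29.DF.T_EXF) : T_TMFr := by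
  classical
  intro ε hε
  obtain ⟨κ1, hκ1, hκ1', δ1, hδ1, C1, k1, hC1, H1⟩ := hTMG (ε / 2) (by positivity)
  obtain ⟨κ2, hκ2, hκ2', δ2, hδ2, C2, k2, hC2, H2⟩ := hEXF (ε / 2) (by positivity)
  obtain ⟨C3, k3, hC3, H3⟩ := hCRL
  obtain ⟨C4, k4, hC4, H4⟩ := Pool.Agent.H29.DF.exists_anis (ε / 8) (by positivity)
  obtain ⟨C5, hC5, H5⟩ := log_pow_le k4 (ε / 2) (by positivity)
  refine ⟨min κ1 κ2, lt_min hκ1 hκ2, (min_le_left _ _).trans hκ1', min δ1 δ2, lt_min hδ1 hδ2,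
    8 * C1 * 2 ^ k1 * (C3 + 1) ^ (k1 + 3) + C2 * (C4 * C5) + C2, (k3 + 1) * (k1 + 3) + k2,
    by positivity, ?_⟩
  intro s X V N α K _ _ σ σ' S f κ ν F hs hX hV hN hNX hα hF
  have hX0 : 0 < X := by linarith
  set W : ℝ := 1 + |s.im| + V with hW
  have hW1 : 1 ≤ W := by
    have := abs_nonneg s.im
    linarith
  have hs1 : |s.re - 1 / 2| ≤ κ1 := hs.trans (min_le_left _ _)
  have hs2 : |s.re - 1 / 2| ≤ κ2 := hs.trans (min_le_right _ _)
  have hN1 : (N : ℝ) ≤ X ^ ((1 + δ1) / 2) := hNX.trans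
    (Real.rpow_le_rpow_of_exponent_le hX (by have := min_le_left δ1 δ2; linarith))
  have hN2 : (N : ℝ) ≤ X ^ ((1 + δ2) / 2) := hNX.trans
    (Real.rpow_le_rpow_of_exponent_le hX (by have := min_le_right δ1 δ2; linarith))
  have hN0 : (0 : ℝ) ≤ N := Nat.cast_nonneg N
  have hF0 : Famr K σ σ' S f κ ν F 0 X V := famr_zero hF (by positivity)
  have hXe : X ^ (3 / 2 + ε / 2) ≤ X ^ (3 / 2 + ε) :=
    Real.rpow_le_rpow_of_exponent_le hX (by linarith)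
  have hXp : (0 : ℝ) < X ^ (3 / 2 + ε) := Real.rpow_pos_of_pos hX0 _
  have hWk2 : W ^ k2 ≤ W ^ ((k3 + 1) * (k1 + 3) + k2) :=
    pow_le_pow_right₀ hW1 (Nat.le_add_left _ _)
  have hWk1 : W ^ ((k3 + 1) * (k1 + 3)) ≤ W ^ ((k3 + 1) * (k1 + 3) + k2) :=
    pow_le_pow_right₀ hW1 (Nat.le_add_right _ _)
  set g : IXr K → ℝ := fun x => ‖∑ n ∈ Sq N, α n * lc x.2 n‖ ^ 2 * ‖F x s‖ ^ 2 with hg
  have hg0 : ∀ x, 0 ≤ g x := fun x => by positivity
  by_cases hX2 : X < 2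
  · have h1 := H2 s X V N α K σ σ' S f κ ν F {1} hs2 hX hV hN hN2 hα hF0 (by
      intro x hx
      obtain ⟨a1, -, a3, -⟩ := lvr_le hF x hx
      have a4 : (x.1 : ℝ) < 2 := by linarith
      have a5 : x.1 < 2 := by exact_mod_cast a4
      rw [Finset.mem_singleton]
      omega)
    refine h1.trans ?_
    rw [Finset.card_singleton, Nat.cast_one, mul_one]
    have hCle : C2 ≤ 8 * C1 * 2 ^ k1 * (C3 + 1) ^ (k1 + 3) + C2 * (C4 * C5) + C2 := by
      have : 0 ≤ 8 * C1 * 2 ^ k1 * (C3 + 1) ^ (k1 + 3) + C2 * (C4 * C5) := by positivity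
      linarith
    gcongr
  · have hX2' : 2 ≤ X := not_lt.1 hX2
    obtain ⟨E, hES, hEc, hE⟩ := H4 X hX2' K σ σ' (S.image Sigma.fst) (by
      intro D hD
      obtain ⟨x, hx, rfl⟩ := Finset.mem_image.1 hD
      exact ⟨hF.rq x hx, (lvr_le hF x hx).2.2.1⟩)
    -- the exceptional part
    have hS1 : ∑ x ∈ S.filter (fun x => x.1 ∈ E), g x ≤
        C2 * (C4 * C5) * W ^ k2 * X ^ (3 / 2 + ε) * N := by
      have h1 := H2 s X V N α K σ σ' (S.filter (fun x => x.1 ∈ E)) f κ ν F E hs2 hX hV hN hN2 hα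
        (famr_sub hF0 (Finset.filter_subset _ _)) (fun x hx => (Finset.mem_filter.1 hx).2)
      have h2 : (E.card : ℝ) ≤ C4 * (C5 * X ^ (ε / 2)) :=
        hEc.trans (mul_le_mul_of_nonneg_left (H5 X hX) hC4)
      calc _ ≤ C2 * W ^ k2 * E.card * X ^ (3 / 2 + ε / 2) * N := h1
        _ ≤ C2 * W ^ k2 * (C4 * (C5 * X ^ (ε / 2))) * X ^ (3 / 2 + ε / 2) * N := by gcongr
        _ = C2 * (C4 * C5) * W ^ k2 * (X ^ (ε / 2) * X ^ (3 / 2 + ε / 2)) * N := by ring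
        _ = C2 * (C4 * C5) * W ^ k2 * X ^ (3 / 2 + ε) * N := by
            rw [← Real.rpow_add hX0]
            congr 3
            ring
    -- the other part
    set M : ℝ := (C3 + 1) * W ^ (k3 + 1) with hM
    have hMW : W ≤ M := by
      have h1 : W ≤ W ^ (k3 + 1) := le_self_pow₀ hW1 (Nat.succ_ne_zero k3)
      have h2 : 0 ≤ C3 * W ^ (k3 + 1) := by positivity
      rw [hM]
      nlinarith
    have hM1 : 1 ≤ M := hW1.trans hMW
    have hexm : ∀ x : IXr K, ∃ m : ℕ, x ∈ S → (m : ℝ) ≤ M ∧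
        1 ≤ M * ‖crr (κ x) m (ν x) s‖ := by
      intro x
      obtain ⟨m, hm1, hm2⟩ := H3 (κ x) (ν x) s (hs1.trans hκ1')
      refine ⟨m, fun hx => ?_⟩
      have h1 : C3 * (1 + |s.im| + |ν x|) ^ k3 ≤ M := by
        have h2 : 1 + |s.im| + |ν x| ≤ W := by
          have := hF.nu x hx
          rw [hW]; linarith
        have h3 : 0 ≤ 1 + |s.im| + |ν x| := by positivity
        calc C3 * (1 + |s.im| + |ν x|) ^ k3 ≤ (C3 + 1) * W ^ k3 := by
              gcongr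
              linarith
          _ ≤ (C3 + 1) * W ^ (k3 + 1) := by
              have := pow_le_pow_right₀ hW1 (Nat.le_succ k3)
              gcongr
      exact ⟨hm1.trans h1, hm2.trans (mul_le_mul_of_nonneg_right h1 (norm_nonneg _))⟩
    choose mm hmm using hexm
    have hexp : ∀ x : IXr K, ∃ p : ℕ, x ∈ S.filter (fun x => x.1 ∉ E) → p.Prime ∧
        (p : ℝ) ≤ X ^ (ε / 8) ∧
        ∀ Q : QF, -(dsc Q) = (x.1 : ℤ) * (f x : ℤ) ^ 2 → Anis p Q := by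
      intro x
      by_cases hx : x ∈ S.filter (fun x => x.1 ∉ E)
      · obtain ⟨hxS, hxE⟩ := Finset.mem_filter.1 hx
        obtain ⟨-, a2, -, a4⟩ := lvr_le hF x hxS
        obtain ⟨p, hp1, -, hp3, -, hp5⟩ := hE x.1 (Finset.mem_image_of_mem _ hxS) hxE (f x) a2 a4
        exact ⟨p, fun _ => ⟨hp1, hp3, hp5⟩⟩
      · exact ⟨0, fun h => absurd h hx⟩
    choose pp hpp using hexp
    set S2 := S.filter (fun x => x.1 ∉ E) with hS2
    have hS2S : S2 ⊆ S := Finset.filter_subset _ _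
    set T : Finset (ℕ × ℕ × ℕ) := Finset.range 2 ×ˢ Finset.range (⌊M⌋₊ + 1) ×ˢ
      Finset.range (⌊X ^ (ε / 8)⌋₊ + 1) with hT
    have hXe8 : 1 ≤ X ^ (ε / 8) := Real.one_le_rpow hX (by positivity)
    have hTc : (T.card : ℝ) ≤ 8 * M * X ^ (ε / 8) := by
      rw [hT, Finset.card_product, Finset.card_product, Finset.card_range, Finset.card_range,
        Finset.card_range]
      push_cast
      have h1 : ((⌊M⌋₊ : ℝ) + 1) ≤ 2 * M := by
        have := Nat.floor_le (show (0 : ℝ) ≤ M by linarith)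
        linarith
      have h2 : ((⌊X ^ (ε / 8)⌋₊ : ℝ) + 1) ≤ 2 * X ^ (ε / 8) := by
        have := Nat.floor_le (show (0 : ℝ) ≤ X ^ (ε / 8) by linarith)
        linarith
      calc (2 : ℝ) * (((⌊M⌋₊ : ℝ) + 1) * ((⌊X ^ (ε / 8)⌋₊ : ℝ) + 1)) ≤
          2 * ((2 * M) * (2 * X ^ (ε / 8))) := by gcongr
        _ = _ := by ring
    have hkey : ∀ x ∈ S2, (κ x, mm x, pp x) ∈ T := by
      intro x hx
      have hxS := hS2S hx
      rw [hT, Finset.mem_product, Finset.mem_product, Finset.mem_range, Finset.mem_range,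
        Finset.mem_range]
      refine ⟨Nat.lt_succ_of_le (hF.ch x hxS).kap, ?_, ?_⟩
      · exact Nat.lt_succ_of_le (Nat.le_floor (hmm x hxS).1)
      · exact Nat.lt_succ_of_le (Nat.le_floor (hpp x hx).2.1)
    have hT1 : ∀ t ∈ T, ∑ x ∈ S2.filter (fun x => (κ x, mm x, pp x) = t), g x ≤
        M ^ 2 * (C1 * (X ^ (ε / 8)) ^ 3 * (2 * M) ^ k1 * X ^ (3 / 2 + ε / 2) * N) := by
      intro t ht
      by_cases hne : (S2.filter (fun x => (κ x, mm x, pp x) = t)).Nonempty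
      · obtain ⟨x0, hx0⟩ := hne
        obtain ⟨hx0S, hx0t⟩ := Finset.mem_filter.1 hx0
        obtain ⟨q, m, p⟩ := t
        have e1 : pp x0 = p := congrArg (fun z : ℕ × ℕ × ℕ => z.2.2) hx0t
        have e2 : mm x0 = m := congrArg (fun z : ℕ × ℕ × ℕ => z.2.1) hx0t
        have hp : p.Prime := e1 ▸ (hpp x0 hx0S).1
        have hpX : (p : ℝ) ≤ X ^ (ε / 8) := e1 ▸ (hpp x0 hx0S).2.1
        have hmM : (m : ℝ) ≤ M := e2 ▸ (hmm x0 (hS2S hx0S)).1
        set S3 := S2.filter (fun x => (κ x, mm x, pp x) = (q, m, p)) with hS3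
        have hS3S : S3 ⊆ S := (Finset.filter_subset _ _).trans hS2S
        have h1 := H1 (m : ℤ) q p s X V N α K σ σ' S3 f κ ν F hs1 hX hN hN1 hα hp
          (famr_sub hF hS3S)
          (fun x hx => congrArg (fun z : ℕ × ℕ × ℕ => z.1) (Finset.mem_filter.1 hx).2)
          (fun x hx => by
            have e3 : pp x = p :=
              congrArg (fun z : ℕ × ℕ × ℕ => z.2.2) (Finset.mem_filter.1 hx).2
            rw [← e3]
            exact (hpp x (Finset.mem_filter.1 hx).1).2.2)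
        have h2 : ∀ x ∈ S3, g x ≤ M ^ 2 * (‖∑ n ∈ Sq N, α n * lc x.2 n‖ ^ 2 * ‖F x s‖ ^ 2 *
            ‖crr q (m : ℤ) (ν x) s‖ ^ 2) := by
          intro x hx
          have e3 : κ x = q := congrArg (fun z : ℕ × ℕ × ℕ => z.1) (Finset.mem_filter.1 hx).2
          have e4 : mm x = m :=
            congrArg (fun z : ℕ × ℕ × ℕ => z.2.1) (Finset.mem_filter.1 hx).2
          have h3 := (hmm x (hS3S hx)).2
          rw [e3, e4] at h3
          have h4 : (1 : ℝ) ≤ (M * ‖crr q (m : ℤ) (ν x) s‖) ^ 2 := one_le_pow₀ h3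
          calc g x = g x * 1 := (mul_one _).symm
            _ ≤ g x * (M * ‖crr q (m : ℤ) (ν x) s‖) ^ 2 :=
                mul_le_mul_of_nonneg_left h4 (hg0 x)
            _ = _ := by rw [hg]; ring
        have h5 : (1 + |s.im| + |((m : ℤ) : ℝ)|) ≤ 2 * M := by
          have h6 : |((m : ℤ) : ℝ)| = m := by
            push_cast
            exact abs_of_nonneg (Nat.cast_nonneg m)
          rw [h6]
          have : 1 + |s.im| ≤ W := by rw [hW]; linarith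
          linarith
        have h7 : 0 ≤ 1 + |s.im| + |((m : ℤ) : ℝ)| := by positivity
        calc ∑ x ∈ S3, g x ≤ ∑ x ∈ S3, M ^ 2 * (‖∑ n ∈ Sq N, α n * lc x.2 n‖ ^ 2 *
              ‖F x s‖ ^ 2 * ‖crr q (m : ℤ) (ν x) s‖ ^ 2) := Finset.sum_le_sum h2
          _ = M ^ 2 * ∑ x ∈ S3, ‖∑ n ∈ Sq N, α n * lc x.2 n‖ ^ 2 *
              ‖F x s‖ ^ 2 * ‖crr q (m : ℤ) (ν x) s‖ ^ 2 := by rw [Finset.mul_sum]
          _ ≤ M ^ 2 * (C1 * (p : ℝ) ^ 3 * (1 + |s.im| + |((m : ℤ) : ℝ)|) ^ k1 *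
              X ^ (3 / 2 + ε / 2) * N) := by gcongr
          _ ≤ M ^ 2 * (C1 * (X ^ (ε / 8)) ^ 3 * (2 * M) ^ k1 * X ^ (3 / 2 + ε / 2) * N) := by
              gcongr
      · rw [Finset.not_nonempty_iff_eq_empty] at hne
        rw [hne, Finset.sum_empty]
        positivity
    have hS2' : ∑ x ∈ S2, g x ≤
        8 * C1 * 2 ^ k1 * (C3 + 1) ^ (k1 + 3) * W ^ ((k3 + 1) * (k1 + 3)) *
          X ^ (3 / 2 + ε) * N := by
      calc ∑ x ∈ S2, g x = ∑ t ∈ T, ∑ x ∈ S2.filter (fun x => (κ x, mm x, pp x) = t), g x :=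
            (Finset.sum_fiberwise_of_maps_to hkey _).symm
        _ ≤ ∑ t ∈ T, M ^ 2 * (C1 * (X ^ (ε / 8)) ^ 3 * (2 * M) ^ k1 *
              X ^ (3 / 2 + ε / 2) * N) := Finset.sum_le_sum hT1
        _ = T.card * (M ^ 2 * (C1 * (X ^ (ε / 8)) ^ 3 * (2 * M) ^ k1 *
              X ^ (3 / 2 + ε / 2) * N)) := by rw [Finset.sum_const, nsmul_eq_mul]
        _ ≤ (8 * M * X ^ (ε / 8)) * (M ^ 2 * (C1 * (X ^ (ε / 8)) ^ 3 * (2 * M) ^ k1 *
              X ^ (3 / 2 + ε / 2) * N)) := by gcongr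
        _ = 8 * C1 * 2 ^ k1 * M ^ (k1 + 3) * ((X ^ (ε / 8)) ^ 4 * X ^ (3 / 2 + ε / 2)) * N := by
            rw [mul_pow 2 M k1]; ring
        _ = 8 * C1 * 2 ^ k1 * M ^ (k1 + 3) * X ^ (3 / 2 + ε) * N := by
            rw [← Real.rpow_natCast (X ^ (ε / 8)) 4, ← Real.rpow_mul hX0.le,
              ← Real.rpow_add hX0]
            congr 3
            push_cast
            ring
        _ = _ := by
            rw [hM, mul_pow, ← pow_mul]
            ring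
    rw [← Finset.sum_filter_add_sum_filter_not S (fun x => x.1 ∈ E)]
    calc _ ≤ C2 * (C4 * C5) * W ^ k2 * X ^ (3 / 2 + ε) * N +
          8 * C1 * 2 ^ k1 * (C3 + 1) ^ (k1 + 3) * W ^ ((k3 + 1) * (k1 + 3)) *
          X ^ (3 / 2 + ε) * N := add_le_add hS1 hS2'
      _ ≤ C2 * (C4 * C5) * W ^ ((k3 + 1) * (k1 + 3) + k2) * X ^ (3 / 2 + ε) * N +
          8 * C1 * 2 ^ k1 * (C3 + 1) ^ (k1 + 3) * W ^ ((k3 + 1) * (k1 + 3) + k2) *
          X ^ (3 / 2 + ε) * N := by gcongr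
      _ = (8 * C1 * 2 ^ k1 * (C3 + 1) ^ (k1 + 3) + C2 * (C4 * C5)) *
          W ^ ((k3 + 1) * (k1 + 3) + k2) * X ^ (3 / 2 + ε) * N := by ring
      _ ≤ (8 * C1 * 2 ^ k1 * (C3 + 1) ^ (k1 + 3) + C2 * (C4 * C5) + C2) *
          W ^ ((k3 + 1) * (k1 + 3) + k2) * X ^ (3 / 2 + ε) * N := by
          have h9 : 8 * C1 * 2 ^ k1 * (C3 + 1) ^ (k1 + 3) + C2 * (C4 * C5) ≤
              8 * C1 * 2 ^ k1 * (C3 + 1) ^ (k1 + 3) + C2 * (C4 * C5) + C2 := by linarith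
          have h10 : 0 ≤ W ^ ((k3 + 1) * (k1 + 3) + k2) := by positivity
          exact mul_le_mul_of_nonneg_right (mul_le_mul_of_nonneg_right
            (mul_le_mul_of_nonneg_right h9 h10) hXp.le) hN0

end Pool.Agent.H58.DF
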