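import Pool.Agent.H95.DR.Targets

/-!
# Row AUW: every window contains the same number of units
-/

set_option autoImplicit false

open MeasureTheory Set Filter NumberField
open scoped Real nonZeroDivisors Matrix MatrixGroups
open Pool.Agent.H31.CN Pool.Agent.H89.FM Pool.Agent.H61.FM Pool.Agent.H89.FC Pool.Agent.H95.FC
open Pool.Agent.H89.DF Pool.Agent.H95.DR

namespace Pool.Agent.H58.DF

theorem pf_UWN (hEMB : T_EMB) (hTYR : T_TYR) : T_UWN := by
  intro K _ _ D f σ σ' hRQ η hη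
  obtain ⟨-, hnorm, hfin⟩ := hEMB K D σ σ' hRQ
  obtain ⟨hT1, -, -⟩ := hTYR K σ σ' 0 0
  have hσ : ∀ u : (𝓞 K)ˣ, σ ((u : 𝓞 K) : K) ≠ 0 := fun u => by
    rw [map_ne_zero]
    exact_mod_cast u.ne_zero
  have hσ' : ∀ u : (𝓞 K)ˣ, σ' ((u : 𝓞 K) : K) ≠ 0 := fun u => by
    rw [map_ne_zero]
    exact_mod_cast u.ne_zero
  -- the logarithm as a homomorphism
  let L : (𝓞 K)ˣ →* Multiplicative ℝ :=
    { toFun := fun u => Multiplicative.ofAdd (lg σ σ' (u : 𝓞 K))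
      map_one' := by
        have : lg σ σ' ((1 : (𝓞 K)ˣ) : 𝓞 K) = 0 := by
          unfold lg; simp
        rw [this]; rfl
      map_mul' := fun u v => by
        rw [Units.val_mul, (hT1 _ _ u.ne_zero v.ne_zero).1]; rfl }
  have hL : ∀ (u : (𝓞 K)ˣ) (k : ℤ), lg σ σ' ((u * η ^ k : (𝓞 K)ˣ) : 𝓞 K) =
      lg σ σ' (u : 𝓞 K) + k * lg σ σ' (η : 𝓞 K) := by
    intro u k
    have h1 : L (u * η ^ k) = L u * L η ^ k := by rw [map_mul, map_zpow]
    have h2 := congrArg Multiplicative.toAdd h1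
    rw [toAdd_mul, toAdd_zpow, zsmul_eq_mul] at h2
    exact h2
  set P : ℝ := lg σ σ' (η : 𝓞 K) with hP
  have hP0 : 0 < P := by
    have h1 := hη.gt
    have h2 := hη.nrm
    have h3 : (0 : ℝ) < σ ((η : 𝓞 K) : K) := by linarith
    have h4 : σ' ((η : 𝓞 K) : K) = (σ ((η : 𝓞 K) : K))⁻¹ := eq_inv_of_mul_eq_one_right h2
    rw [hP]
    unfold lg
    rw [h4, div_inv_eq_mul, abs_of_pos (mul_pos h3 h3)]
    exact Real.log_pos (by nlinarith)
  let S : ℝ → Set (𝓞 K)ˣ := fun x =>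
    {u : (𝓞 K)ˣ | x ≤ lg σ σ' (u : 𝓞 K) ∧ lg σ σ' (u : 𝓞 K) < x + P}
  have hSfin : ∀ x, (S x).Finite := by
    intro x
    set B : ℝ := Real.exp (|x| + P) with hB
    have h1 : S x ⊆ (fun u : (𝓞 K)ˣ => (u : 𝓞 K)) ⁻¹'
        {a : 𝓞 K | |σ (a : K)| ≤ B ∧ |σ' (a : K)| ≤ B} := by
      rintro u ⟨hu1, hu2⟩
      have h2 : |σ ((u : 𝓞 K) : K)| * |σ' ((u : 𝓞 K) : K)| = 1 := by
        rw [← abs_mul, ← hnorm (u : 𝓞 K)]
        have : Ideal.span {(u : 𝓞 K)} = ⊤ := Ideal.span_singleton_eq_top.2 u.isUnit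
        rw [this, Ideal.absNorm_top, Nat.cast_one]
      have ha : 0 < |σ ((u : 𝓞 K) : K)| := abs_pos.2 (hσ u)
      have hb : 0 < |σ' ((u : 𝓞 K) : K)| := abs_pos.2 (hσ' u)
      have h3 : Real.log |σ ((u : 𝓞 K) : K)| + Real.log |σ' ((u : 𝓞 K) : K)| = 0 := by
        rw [← Real.log_mul ha.ne' hb.ne', h2, Real.log_one]
      have h4 : lg σ σ' (u : 𝓞 K) = Real.log |σ ((u : 𝓞 K) : K)| -
          Real.log |σ' ((u : 𝓞 K) : K)| := by
        unfold lg
        rw [abs_div, Real.log_div ha.ne' hb.ne']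
      have h5 : |lg σ σ' (u : 𝓞 K)| ≤ |x| + P := by
        rw [abs_le]
        constructor
        · linarith [neg_abs_le x]
        · linarith [le_abs_self x]
      rw [abs_le] at h5
      have h6 : 0 ≤ |x| + P := by positivity
      constructor
      · rw [hB, ← Real.log_le_iff_le_exp ha]
        linarith [h5.1, h5.2]
      · rw [hB, ← Real.log_le_iff_le_exp hb]
        linarith [h5.1, h5.2]
    exact ((hfin B).preimage (fun u _ v _ huv => Units.ext huv)).subset h1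
  have hle : ∀ x y, (S x).ncard ≤ (S y).ncard := by
    intro x y
    refine Set.ncard_le_ncard_of_injOn
      (fun u => u * η ^ (-⌊(lg σ σ' (u : 𝓞 K) - y) / P⌋)) ?_ ?_ (hSfin y)
    · rintro u ⟨hu1, hu2⟩
      show y ≤ lg σ σ' ((u * η ^ (-⌊(lg σ σ' (u : 𝓞 K) - y) / P⌋) : (𝓞 K)ˣ) : 𝓞 K) ∧
        lg σ σ' ((u * η ^ (-⌊(lg σ σ' (u : 𝓞 K) - y) / P⌋) : (𝓞 K)ˣ) : 𝓞 K) < y + P
      rw [hL]
      push_cast
      have h1 := Int.floor_le ((lg σ σ' (u : 𝓞 K) - y) / P)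
      have h2 := Int.lt_floor_add_one ((lg σ σ' (u : 𝓞 K) - y) / P)
      rw [le_div_iff₀ hP0] at h1
      rw [div_lt_iff₀ hP0] at h2
      constructor
      · linarith
      · linarith
    · rintro u ⟨hu1, hu2⟩ v ⟨hv1, hv2⟩ huv
      have huv' : u * η ^ (-⌊(lg σ σ' (u : 𝓞 K) - y) / P⌋) =
          v * η ^ (-⌊(lg σ σ' (v : 𝓞 K) - y) / P⌋) := huv
      generalize -⌊(lg σ σ' (u : 𝓞 K) - y) / P⌋ = i at huv'
      generalize -⌊(lg σ σ' (v : 𝓞 K) - y) / P⌋ = j at huv'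
      have h1 := hL u i
      rw [huv', hL v j] at h1
      have h2 : ((i - j : ℤ) : ℝ) * P = lg σ σ' (v : 𝓞 K) - lg σ σ' (u : 𝓞 K) := by
        push_cast; linarith
      have h3 : ((i - j : ℤ) : ℝ) < 1 := by
        by_contra h
        have := mul_le_mul_of_nonneg_right (not_lt.1 h) hP0.le
        linarith
      have h4 : (-1 : ℝ) < ((i - j : ℤ) : ℝ) := by
        by_contra h
        have := mul_le_mul_of_nonneg_right (not_lt.1 h) hP0.le
        linarith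
      have h5 : i - j = 0 := by
        have h6 : i - j < 1 := by exact_mod_cast h3
        have h7 : -1 < i - j := by exact_mod_cast h4
        omega
      have h6 : i = j := by omega
      rw [h6] at huv'
      exact mul_right_cancel huv'
  have hnq : nq σ σ' η = (S 0).ncard := by
    unfold nq
    have h1 : S 0 = {u : (𝓞 K)ˣ | 0 ≤ lg σ σ' (u : 𝓞 K) ∧ lg σ σ' (u : 𝓞 K) <
        lg σ σ' (η : 𝓞 K)} := by
      show {u : (𝓞 K)ˣ | 0 ≤ lg σ σ' (u : 𝓞 K) ∧ lg σ σ' (u : 𝓞 K) < 0 + P} = _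
      rw [zero_add]
    rw [h1, ← Nat.card_coe_set_eq]
    rfl
  refine ⟨hP0, ?_, fun x => ⟨hSfin x, ?_⟩⟩
  · rw [hnq, Set.ncard_pos (hSfin 0)]
    refine ⟨1, ?_, ?_⟩
    · have : lg σ σ' ((1 : (𝓞 K)ˣ) : 𝓞 K) = 0 := by
        unfold lg; simp
      rw [this]
    · have : lg σ σ' ((1 : (𝓞 K)ˣ) : 𝓞 K) = 0 := by
        unfold lg; simp
      rw [this, zero_add]; exact hP0
  · rw [hnq]
    exact le_antisymm (hle x 0) (hle 0 x)

end Pool.Agent.H58.DF
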