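import Pool.Agent.H95.DR.Targets

/-!
# Row AVI: the vectors of an ideal and the integral ideals of the inverse class
-/

set_option autoImplicit false

open MeasureTheory Set Filter NumberField
open scoped Real nonZeroDivisors Matrix MatrixGroups
open Pool.Agent.H31.CN Pool.Agent.H89.FM Pool.Agent.H61.FM Pool.Agent.H89.FC Pool.Agent.H95.FC
open Pool.Agent.H89.DF Pool.Agent.H95.DR

namespace Pool.Agent.H58.DF

theorem pf_VIGr (hEMB : T_EMB) : T_VIGr := by
  intro K _ _ D σ σ' hRQ I α β Q h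
  obtain ⟨-, hnorm, -⟩ := hEMB K D σ σ' hRQ
  have hI0 : (I : Ideal (𝓞 K)) ≠ 0 := nonZeroDivisors.coe_ne_zero I
  have hne : ∀ v : ℤ × ℤ, v ≠ 0 → lv K α β v ≠ 0 :=
    fun v hv h0 => hv (h.inj v h0)
  have hex : ∀ v : ℤ × ℤ, ∃ b : (Ideal (𝓞 K))⁰, v ≠ 0 →
      Ideal.span {lv K α β v} = (b : Ideal (𝓞 K)) * I := by
    intro v
    by_cases hv : v = 0
    · exact ⟨1, fun h => absurd hv h⟩
    · have hmem : lv K α β v ∈ (I : Ideal (𝓞 K)) := (h.mem _).2 ⟨v, rfl⟩
      have hdvd : (I : Ideal (𝓞 K)) ∣ Ideal.span {lv K α β v} := by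
        rw [Ideal.dvd_span_singleton]
        exact hmem
      obtain ⟨c, hc⟩ := hdvd
      have hc0 : c ≠ 0 := by
        rintro rfl
        rw [mul_zero] at hc
        exact hne v hv (Ideal.span_singleton_eq_bot.1 hc)
      exact ⟨⟨c, mem_nonZeroDivisors_of_ne_zero hc0⟩, fun _ => by rw [hc, mul_comm]⟩
  choose b hb using hex
  refine ⟨b, hb, fun v hv => ?_, fun v hv => ?_, fun J hJ => ?_, fun v v' hv hv' => ?_⟩
  · rw [eq_inv_iff_mul_eq_one, ← map_mul, ClassGroup.mk0_eq_one_iff]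
    refine ⟨⟨lv K α β v, ?_⟩⟩
    rw [Submonoid.coe_mul, ← hb v hv, Ideal.submodule_span_eq]
  · have h1 := hnorm (lv K α β v)
    rw [hb v hv, h.nrm v, map_mul, abs_mul] at h1
    have hIpos : (0 : ℝ) < (Ideal.absNorm (I : Ideal (𝓞 K)) : ℝ) := by
      have : Ideal.absNorm (I : Ideal (𝓞 K)) ≠ 0 := by
        intro h0
        exact hI0 (Ideal.absNorm_eq_zero_iff.1 h0)
      exact_mod_cast Nat.pos_of_ne_zero this
    rw [abs_of_pos hIpos] at h1
    push_cast at h1
    have h2 : (Ideal.absNorm (b v : Ideal (𝓞 K)) : ℝ) = |(val Q v : ℝ)| := by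
      apply mul_right_cancel₀ hIpos.ne'
      rw [h1]; ring
    have h3 : ((nm (b v) : ℤ) : ℝ) = ((|val Q v| : ℤ) : ℝ) := by
      push_cast
      exact h2
    exact_mod_cast h3
  · rw [eq_inv_iff_mul_eq_one, ← map_mul, ClassGroup.mk0_eq_one_iff] at hJ
    obtain ⟨⟨γ, hγ⟩⟩ := hJ
    have hγ' : (J : Ideal (𝓞 K)) * I = Ideal.span {γ} := by
      rw [← Submonoid.coe_mul, hγ, Ideal.submodule_span_eq]
    have hmem : γ ∈ (I : Ideal (𝓞 K)) := by
      have h1 : γ ∈ (J : Ideal (𝓞 K)) * I := by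
        rw [hγ']
        exact Ideal.mem_span_singleton_self γ
      exact Ideal.mul_le_right h1
    obtain ⟨v, hv⟩ := (h.mem γ).1 hmem
    have hv0 : v ≠ 0 := by
      rintro rfl
      have h2 : lv K α β 0 = 0 := by unfold lv; simp
      rw [h2] at hv
      rw [hv] at hγ'
      have h1 : (J : Ideal (𝓞 K)) * I = 0 := by
        rw [hγ']
        simp
      exact mul_ne_zero (nonZeroDivisors.coe_ne_zero J) hI0 h1
    refine ⟨v, hv0, ?_⟩
    have h2 := hb v hv0
    rw [← hv, ← hγ'] at h2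
    exact Subtype.ext (mul_right_cancel₀ hI0 h2.symm)
  · constructor
    · intro hbv
      have h1 : Ideal.span {lv K α β v} = Ideal.span {lv K α β v'} := by
        rw [hb v hv, hb v' hv', hbv]
      rw [Ideal.span_singleton_eq_span_singleton] at h1
      obtain ⟨u, hu⟩ := h1
      exact ⟨u, by rw [← hu, mul_comm]⟩
    · rintro ⟨u, hu⟩
      have h1 : Ideal.span {lv K α β v} = Ideal.span {lv K α β v'} := by
        rw [Ideal.span_singleton_eq_span_singleton]
        exact ⟨u, by rw [hu, mul_comm]⟩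
      rw [hb v hv, hb v' hv'] at h1
      exact Subtype.ext (mul_right_cancel₀ hI0 h1)

end Pool.Agent.H58.DF
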