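import Pool.Agent.H95.DR.Targets2

/-!
# Row AWG: the weights
-/

set_option autoImplicit false

open MeasureTheory Set Filter NumberField
open scoped Real nonZeroDivisors Matrix MatrixGroups
open Pool.Agent.H31.CN Pool.Agent.H89.FM Pool.Agent.H61.FM Pool.Agent.H89.FC Pool.Agent.H95.FC
open Pool.Agent.H89.DF Pool.Agent.H95.DR

namespace Pool.Agent.H58.DF

theorem dsc_act (Q : QF) (g : SL(2, ℤ)) : dsc (act Q g) = dsc Q := by
  have hdet : g 0 0 * g 1 1 - g 0 1 * g 1 0 = 1 := by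
    have := g.det_coe
    rwa [Matrix.det_fin_two] at this
  have e : dsc (act Q g) = dsc Q * (g 0 0 * g 1 1 - g 0 1 * g 1 0) ^ 2 := by
    unfold act dsc val
    ring
  rw [e, hdet]
  ring

theorem dsc_fl (f : ℕ) (Q : QF) (V W : ℤ × ℤ) (h : det V W = 1) :
    dsc (fl f Q V W) = (f : ℤ) ^ 2 * dsc Q := by
  have e : dsc (fl f Q V W) = (f : ℤ) ^ 2 * dsc Q * det V W ^ 2 := by
    unfold fl dsc val bl det
    ring
  rw [e, h]
  ring

/-- (1) the time of a basis with the given form and with the point above `1 / 2` -/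
theorem wgt_pt (hPBT : T_PBT) (hPBG : T_PBG) {K : Type} [Field K] [NumberField K] {D f : ℕ}
    {σ σ' : K →+* ℝ} (hf : 1 ≤ f) (R : DD K D f σ σ')
    (c : ClassGroup (𝓞 K)) (V : ℤ × ℤ) (hV : V ∈ R.T c) (g : SL(2, ℤ)) (τ : ℝ)
    (hy : 1 / 2 ≤ gy g (R.z c V τ).re (R.z c V τ).im) :
    |τ + ly R c V g| ≤ Real.log (2 * Real.sqrt ((D : ℝ) * (f : ℝ) ^ 2)) := by
  obtain ⟨h1, h2, h3, -⟩ := hPBT K σ σ'
  have hI : (R.I c : Ideal (𝓞 K)) ≠ ⊥ := nonZeroDivisors.coe_ne_zero (R.I c)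
  have hPB := h1 (R.I c) (R.α c) (R.β c) (R.Q c) hI (R.ob c)
  have hdet := (R.lt c).one V hV
  obtain ⟨hPB', -⟩ := h2 _ _ _ _ f V (R.W c V) hPB hf hdet
  obtain ⟨hPB'', hz⟩ := h3 _ _ _ _ g hPB'
  obtain ⟨-, hz2⟩ := hz τ
  obtain ⟨-, -, hG⟩ := hPBG K σ σ' _ _ _ _ hPB''
  obtain ⟨him, -, hv⟩ := hG τ
  have hdsc : -(dsc (act (fl f (R.Q c) V (R.W c V)) g) : ℝ) = (D : ℝ) * (f : ℝ) ^ 2 := by
    rw [dsc_act, dsc_fl _ _ _ _ hdet, R.ds c]
    push_cast
    ring
  set a' : 𝓞 K := lv K (lv K (R.α c) (R.β c) V) ((f : 𝓞 K) * lv K (R.α c) (R.β c) (R.W c V))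
    (g 0 0, g 1 0) with ha'
  set b' : 𝓞 K := lv K (lv K (R.α c) (R.β c) V) ((f : 𝓞 K) * lv K (R.α c) (R.β c) (R.W c V))
    (g 0 1, g 1 1) with hb'
  have hl : lv K a' b' (1, 0) = a' := by
    unfold lv; simp
  have ha0 : a' ≠ 0 := by
    intro h0
    have h4 := hPB''.ori
    rw [h0] at h4
    simp at h4
  obtain ⟨-, -, hq⟩ := hv (1, 0) (by rw [hl]; exact ha0)
  rw [hl, hdsc] at hq
  set y : ℝ := (zp σ σ' τ a' b').im with hyd
  set x : ℝ := (zp σ σ' τ a' b').re with hxd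
  have hy' : 1 / 2 ≤ y := by rw [hz2]; exact hy
  have hq1 : qz x y (1, 0) = 1 / (2 * y) := by
    unfold qz; simp
  rw [hq1] at hq
  have hle : 1 / (2 * y) ≤ 1 := by
    rw [div_le_one (by linarith)]; linarith
  have hpos : 0 < 1 / (2 * y) := by positivity
  set Sv : ℤ := val (act (fl f (R.Q c) V (R.W c V)) g) (1, 0) with hSv
  have hlya : ly R c V g = lg σ σ' a' := rfl
  rw [hlya]
  set u : ℝ := τ + lg σ σ' a' with hu
  set Δ : ℝ := (D : ℝ) * (f : ℝ) ^ 2 with hΔ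
  have hS0 : Sv ≠ 0 := by
    intro h0
    rw [h0] at hq
    simp at hq
    linarith
  have hS1 : (1 : ℝ) ≤ |(Sv : ℝ)| := by
    exact_mod_cast Int.one_le_abs hS0
  have hsq : 0 < Real.sqrt Δ := by
    by_contra h
    have h5 : Real.sqrt Δ = 0 := le_antisymm (not_lt.1 h) (Real.sqrt_nonneg _)
    rw [h5, div_zero] at hq
    linarith
  have hcosh : Real.cosh u ≤ Real.sqrt Δ := by
    have h5 : |(Sv : ℝ)| * Real.cosh u / Real.sqrt Δ ≤ 1 := by rw [← hq]; exact hle
    rw [div_le_one hsq] at h5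
    nlinarith [Real.cosh_pos u]
  have hexp : Real.exp |u| ≤ 2 * Real.sqrt Δ := by
    have h5 : Real.exp |u| ≤ 2 * Real.cosh u := by
      rw [← Real.cosh_abs u, Real.cosh_eq]
      have := Real.exp_pos (-|u|)
      linarith
    linarith
  rw [← Real.log_exp |u|]
  exact Real.log_le_log (Real.exp_pos _) hexp

/-- the number of the natural numbers of an interval -/
theorem card_Icc_real {n : ℕ} {p : ℕ → Prop} [DecidablePred p] {a b : ℝ} (hab : a ≤ b)
    (h : ∀ i < n, p i → a ≤ i ∧ (i : ℝ) ≤ b) :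
    (((Finset.range n).filter p).card : ℝ) ≤ b - a + 1 := by
  have h1 : ((Finset.range n).filter p).card ≤ (Finset.Icc ⌈a⌉ ⌊b⌋).card := by
    refine Finset.card_le_card_of_injOn (fun i : ℕ => (i : ℤ)) ?_ ?_
    · intro i hi
      have hi' := Finset.mem_filter.1 (Finset.mem_coe.1 hi)
      obtain ⟨h2, h3⟩ := h i (Finset.mem_range.1 hi'.1) hi'.2
      rw [Finset.mem_coe, Finset.mem_Icc]
      exact ⟨Int.ceil_le.2 (by push_cast; exact h2), Int.le_floor.2 (by push_cast; exact h3)⟩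
    · intro i _ j _ hij
      have hij' : (i : ℤ) = (j : ℤ) := hij
      exact_mod_cast hij'
  have h2 : ((Finset.Icc ⌈a⌉ ⌊b⌋).card : ℝ) ≤ b - a + 1 := by
    rw [Int.card_Icc]
    have h3 : ((⌊b⌋ + 1 - ⌈a⌉).toNat : ℝ) = ((max (⌊b⌋ + 1 - ⌈a⌉) 0 : ℤ) : ℝ) := by
      exact_mod_cast Int.toNat_eq_max _
    rw [h3]
    push_cast
    apply max_le
    · have h4 := Int.floor_le b
      have h5 := Int.le_ceil a
      linarith
    · linarith
  exact le_trans (by exact_mod_cast h1) h2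

theorem pf_WGTr (hUWN : T_UWN) (hPBT : T_PBT) (hPBG : T_PBG) (hMULr : T_MULr) : T_WGTr := by
  classical
  refine ⟨18, by norm_num, ?_⟩
  intro K _ _ D f σ σ' hRQ hf R n t S hn
  obtain ⟨hP0, hn0, -⟩ := hUWN K D f σ σ' hRQ R.η R.un
  have hP : 0 < R.P := hP0
  have hRn : 0 < R.n := hn0
  have hRn' : (0 : ℝ) < R.n := by exact_mod_cast hRn
  set Δ : ℝ := (D : ℝ) * (f : ℝ) ^ 2 with hΔ
  have hΔ1 : 1 ≤ Δ := by
    have h1 : (1 : ℝ) ≤ D := by exact_mod_cast hRQ.pos
    have h2 : (1 : ℝ) ≤ f := by exact_mod_cast hf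
    rw [hΔ]
    nlinarith [sq_nonneg ((f : ℝ) - 1)]
  set B : ℝ := Real.log (2 * Real.sqrt Δ) with hB
  have hs1 : 1 ≤ Real.sqrt Δ := Real.one_le_sqrt.2 hΔ1
  have hB0 : 0 ≤ B := Real.log_nonneg (by linarith)
  have hlog0 : 0 ≤ Real.log Δ := Real.log_nonneg hΔ1
  have hB1 : B ≤ 1 + Real.log Δ := by
    rw [hB, Real.log_mul (by norm_num) (by linarith), Real.log_sqrt (by linarith)]
    have := Real.log_two_lt_d9
    linarith
  -- the bases
  have hM := fun k : ℤ => hMULr K D f σ σ' hRQ hf R S (k * R.P)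
  set 𝒦 : Finset ℤ := Finset.Icc ⌈-(B / R.P) - 2⌉ ⌊B / R.P⌋ with h𝒦
  set 𝒢 : Finset (ClassGroup (𝓞 K) × (ℤ × ℤ) × SL(2, ℤ)) :=
    𝒦.biUnion (fun k => (hM k).1.toFinset) with h𝒢
  have hcard𝒦 : (𝒦.card : ℝ) ≤ 2 * (B / R.P) + 4 := by
    rw [h𝒦, Int.card_Icc]
    have h3 : ((⌊B / R.P⌋ + 1 - ⌈-(B / R.P) - 2⌉).toNat : ℝ) =
        ((max (⌊B / R.P⌋ + 1 - ⌈-(B / R.P) - 2⌉) 0 : ℤ) : ℝ) := by
      exact_mod_cast Int.toNat_eq_max _
    rw [h3]
    push_cast
    apply max_le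
    · have h4 := Int.floor_le (B / R.P)
      have h5 := Int.le_ceil (-(B / R.P) - 2)
      linarith
    · positivity
  have hcard𝒢 : (𝒢.card : ℝ) ≤ 𝒦.card * R.n := by
    have h1 : 𝒢.card ≤ ∑ k ∈ 𝒦, (hM k).1.toFinset.card := Finset.card_biUnion_le
    have h2 : ∑ k ∈ 𝒦, (hM k).1.toFinset.card ≤ ∑ k ∈ 𝒦, R.n := by
      refine Finset.sum_le_sum fun k _ => ?_
      rw [← Set.ncard_eq_toFinset_card _ (hM k).1]
      exact (hM k).2
    rw [Finset.sum_const, smul_eq_mul] at h2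
    exact_mod_cast h1.trans h2
  let jp : ClassGroup (𝓞 K) × (ℤ × ℤ) × SL(2, ℤ) → (Σ _ : ClassGroup (𝓞 K), ℤ × ℤ) :=
    fun p => ⟨p.1, p.2.1⟩
  let Ip : ClassGroup (𝓞 K) × (ℤ × ℤ) × SL(2, ℤ) → Finset ℕ := fun p =>
    (Finset.range (n (jp p))).filter (fun i => |t (jp p) i + ly R p.1 p.2.1 p.2.2| ≤ B)
  have hmem𝒢 : ∀ p ∈ 𝒢, p.2.1 ∈ R.T p.1 := by
    intro p hp
    rw [h𝒢, Finset.mem_biUnion] at hp
    obtain ⟨k, -, hk⟩ := hp
    rw [Set.Finite.mem_toFinset] at hk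
    exact hk.1
  have hjpJ : ∀ p ∈ 𝒢, jp p ∈ R.J := by
    intro p hp
    unfold DD.J
    rw [Finset.mem_sigma]
    exact ⟨Finset.mem_univ _, hmem𝒢 p hp⟩
  have hJT : ∀ j ∈ R.J, j.2 ∈ R.T j.1 := by
    intro j hj
    unfold DD.J at hj
    exact (Finset.mem_sigma.1 hj).2
  -- the main inequality
  have hmain : ∀ j ∈ R.J, ∑ i ∈ (Finset.range (n j)).filter (fun i => ∃ g : SL(2, ℤ),
        act (R.fo j.1 j.2) g = S ∧
          1 / 2 ≤ gy g (R.z j.1 j.2 (t j i)).re (R.z j.1 j.2 (t j i)).im),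
        R.P / n j / R.n ≤
      ∑ p ∈ 𝒢.filter (fun p => jp p = j), (Ip p).card * (R.P / n (jp p) / R.n) := by
    intro j hj
    obtain ⟨hnj, hh1, hti⟩ := hn j hj
    have hnj' : (0 : ℝ) < n j := by exact_mod_cast hnj
    have hw0 : 0 ≤ R.P / n j / R.n := by positivity
    rw [Finset.sum_const, nsmul_eq_mul]
    have hsub : (Finset.range (n j)).filter (fun i => ∃ g : SL(2, ℤ),
        act (R.fo j.1 j.2) g = S ∧
          1 / 2 ≤ gy g (R.z j.1 j.2 (t j i)).re (R.z j.1 j.2 (t j i)).im) ⊆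
        (𝒢.filter (fun p => jp p = j)).biUnion Ip := by
      intro i hi
      obtain ⟨hi1, g, hg1, hg2⟩ := Finset.mem_filter.1 hi
      have hi2 := Finset.mem_range.1 hi1
      have hb := wgt_pt hPBT hPBG hf R j.1 j.2 (hJT j hj) g (t j i) hg2
      rw [← hΔ, ← hB] at hb
      rw [Finset.mem_biUnion]
      refine ⟨(j.1, j.2, g), ?_, ?_⟩
      · rw [Finset.mem_filter]
        refine ⟨?_, rfl⟩
        rw [h𝒢, Finset.mem_biUnion]
        refine ⟨⌊ly R j.1 j.2 g / R.P⌋, ?_, ?_⟩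
        · obtain ⟨ht1, ht2⟩ := hti i hi2
          have ht0 : 0 ≤ t j i := le_trans (by positivity) ht1
          have htP : t j i ≤ R.P := by
            refine ht2.trans ?_
            have h5 : ((i : ℝ) + 1) ≤ n j := by exact_mod_cast hi2
            calc ((i : ℝ) + 1) * (R.P / n j) ≤ n j * (R.P / n j) := by gcongr
              _ = R.P := by field_simp
          rw [abs_le] at hb
          rw [h𝒦, Finset.mem_Icc]
          constructor
          · rw [Int.le_floor]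
            have h6 : -(B / R.P) - 1 ≤ ly R j.1 j.2 g / R.P := by
              rw [le_div_iff₀ hP]
              have : (-(B / R.P) - 1) * R.P = -B - R.P := by field_simp
              rw [this]; linarith [hb.1]
            have h7 := Int.ceil_lt_add_one (-(B / R.P) - 2)
            linarith
          · apply Int.floor_le_floor
            rw [div_le_div_iff_of_pos_right hP]
            linarith [hb.2]
        · rw [Set.Finite.mem_toFinset]
          have h6 := Int.floor_le (ly R j.1 j.2 g / R.P)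
          have h7 := Int.lt_floor_add_one (ly R j.1 j.2 g / R.P)
          rw [le_div_iff₀ hP] at h6
          rw [div_lt_iff₀ hP] at h7
          exact ⟨hJT j hj, hg1, h6, by
            show ly R j.1 j.2 g < _
            linarith⟩
      · show i ∈ (Finset.range (n (jp (j.1, j.2, g)))).filter _
        rw [Finset.mem_filter]
        exact ⟨hi1, hb⟩
    have hc : ((((Finset.range (n j)).filter (fun i => ∃ g : SL(2, ℤ),
        act (R.fo j.1 j.2) g = S ∧
          1 / 2 ≤ gy g (R.z j.1 j.2 (t j i)).re (R.z j.1 j.2 (t j i)).im)).card : ℕ) : ℝ) ≤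
        ∑ p ∈ 𝒢.filter (fun p => jp p = j), ((Ip p).card : ℝ) := by
      exact_mod_cast (Finset.card_le_card hsub).trans Finset.card_biUnion_le
    calc _ ≤ (∑ p ∈ 𝒢.filter (fun p => jp p = j), ((Ip p).card : ℝ)) * (R.P / n j / R.n) := by
          gcongr
      _ = ∑ p ∈ 𝒢.filter (fun p => jp p = j), (Ip p).card * (R.P / n (jp p) / R.n) := by
          rw [Finset.sum_mul]
          refine Finset.sum_congr rfl fun p hp => ?_
          rw [(Finset.mem_filter.1 hp).2]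
  have hterm : ∀ p ∈ 𝒢, (Ip p).card * (R.P / n (jp p) / R.n) ≤
      min R.P (2 * B + 2) / R.n := by
    intro p hp
    obtain ⟨hnj, hh1, hti⟩ := hn (jp p) (hjpJ p hp)
    have hnj' : (0 : ℝ) < n (jp p) := by exact_mod_cast hnj
    set h : ℝ := R.P / n (jp p) with hh
    have hh0 : 0 < h := by positivity
    rw [mul_div_assoc']
    apply div_le_div_of_nonneg_right _ hRn'.le
    apply le_min
    · have h1 : ((Ip p).card : ℝ) ≤ n (jp p) := by
        have : (Ip p).card ≤ (Finset.range (n (jp p))).card := Finset.card_filter_le _ _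
        rw [Finset.card_range] at this
        exact_mod_cast this
      calc ((Ip p).card : ℝ) * h ≤ n (jp p) * h := by gcongr
        _ = R.P := by rw [hh]; field_simp
    · set L : ℝ := ly R p.1 p.2.1 p.2.2 with hL
      have h1 : ((Ip p).card : ℝ) ≤ (B - L) / h - ((-B - L) / h - 1) + 1 := by
        refine card_Icc_real ?_ ?_
        · have : (-B - L) / h ≤ (B - L) / h := by
            rw [div_le_div_iff_of_pos_right hh0]; linarith
          linarith
        · intro i hi hb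
          obtain ⟨ht1, ht2⟩ := hti i hi
          rw [abs_le] at hb
          constructor
          · rw [sub_le_iff_le_add, div_le_iff₀ hh0]
            linarith [hb.1]
          · rw [le_div_iff₀ hh0]
            linarith [hb.2]
      calc ((Ip p).card : ℝ) * h ≤ ((B - L) / h - ((-B - L) / h - 1) + 1) * h := by gcongr
        _ = 2 * B + 2 * h := by field_simp; ring
        _ ≤ 2 * B + 2 := by linarith
  calc _ ≤ ∑ j ∈ R.J, ∑ p ∈ 𝒢.filter (fun p => jp p = j),
        (Ip p).card * (R.P / n (jp p) / R.n) := Finset.sum_le_sum hmain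
    _ = ∑ p ∈ 𝒢, (Ip p).card * (R.P / n (jp p) / R.n) :=
        Finset.sum_fiberwise_of_maps_to hjpJ _
    _ ≤ ∑ p ∈ 𝒢, min R.P (2 * B + 2) / R.n := Finset.sum_le_sum hterm
    _ = 𝒢.card * (min R.P (2 * B + 2) / R.n) := by rw [Finset.sum_const, nsmul_eq_mul]
    _ ≤ (𝒦.card * R.n) * (min R.P (2 * B + 2) / R.n) := by
        have : 0 ≤ min R.P (2 * B + 2) := le_min hP.le (by linarith)
        gcongr
    _ = 𝒦.card * min R.P (2 * B + 2) := by field_simp
    _ ≤ (2 * (B / R.P) + 4) * min R.P (2 * B + 2) := by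
        have : 0 ≤ min R.P (2 * B + 2) := le_min hP.le (by linarith)
        gcongr
    _ = 2 * (B / R.P) * min R.P (2 * B + 2) + 4 * min R.P (2 * B + 2) := by ring
    _ ≤ 2 * (B / R.P) * R.P + 4 * (2 * B + 2) := by
        have : 0 ≤ B / R.P := by positivity
        gcongr
        · exact min_le_left _ _
        · exact min_le_right _ _
    _ = 10 * B + 8 := by field_simp; ring
    _ ≤ 18 * (1 + Real.log Δ) := by linarith

end Pool.Agent.H58.DF
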