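import Pool.Agent.H89.DF.TargetsK
import Pool.Agent.H89.FM.DIA

/-!
# Row KDI: the diagonal terms for a class of anisotropic forms
-/

set_option autoImplicit false

open MeasureTheory Set Filter
open scoped Real Matrix MatrixGroups
open Pool.Agent.H31.CN Pool.Agent.H89.FM Pool.Agent.H89.FC Pool.Agent.H89.DF

namespace Pool.Agent.H58.DF

theorem anis_cgr {p : ℕ} {Q R : QF} (h : Cgr p Q R) (hR : Anis p R) : Anis p Q := by
  intro w hw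
  apply hR w
  obtain ⟨h1, h2, h3⟩ := h
  have e : val R w = val Q w - ((Q.1 - R.1) * w.1 ^ 2 + (Q.2.1 - R.2.1) * (w.1 * w.2) +
      (Q.2.2 - R.2.2) * w.2 ^ 2) := by
    unfold val; ring
  rw [e]
  exact dvd_sub hw (dvd_add (dvd_add (h1.mul_right _) (h2.mul_right _)) (h3.mul_right _))

theorem anis_val {p : ℕ} (hp : p.Prime) {Q : QF} (hQ : Anis p Q) {w : ℤ × ℤ}
    (hw : Int.gcd w.1 w.2 = 1) : val Q w ≠ 0 := by
  intro h0
  obtain ⟨h1, h2⟩ := hQ w (by rw [h0]; exact dvd_zero _)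
  have h3 : (p : ℤ) ∣ (Int.gcd w.1 w.2 : ℤ) := Int.dvd_coe_gcd h1 h2
  rw [hw] at h3
  have h4 : p ∣ 1 := by exact_mod_cast h3
  exact hp.one_lt.ne' (Nat.dvd_one.1 h4)

theorem anis_fst {p : ℕ} (hp : p.Prime) {Q : QF} (hQ : Anis p Q) : Q.1 ≠ 0 := by
  have h := anis_val hp hQ (w := (1, 0)) (by simp)
  intro h0
  apply h
  unfold val
  simp [h0]

/-- the size of the coefficients -/
theorem diar_size {Y ρ : ℝ} {P : ℝ × ℝ × ℝ} {Q : QF} (hY : 1 ≤ Y) (hρ : 1 ≤ ρ) (hP : Bxr Y ρ P)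
    (w : ℤ × ℤ) (D : ℝ) (hD : dq ρ P (rl Q) = D) :
    |(Q.1 : ℝ)| ≤ 100 * Y + Real.sqrt D ∧
      |(val Q w : ℝ)| ≤ 2 * (100 * Y + Real.sqrt D) * nr ρ w := by
  have hρ0 : 0 < ρ := by linarith
  set r : ℝ := Real.sqrt D with hr
  have hD0 : 0 ≤ D := by rw [← hD]; unfold dq; positivity
  have hr2 : r ^ 2 = D := Real.sq_sqrt hD0
  have hr0 : 0 ≤ r := Real.sqrt_nonneg _
  have hD' : (ρ * (P.1 - Q.1)) ^ 2 + (P.2.1 - Q.2.1) ^ 2 + ((P.2.2 - Q.2.2) / ρ) ^ 2 = r ^ 2 := by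
    rw [hr2, ← hD]; rfl
  have h1 : |ρ * (P.1 - Q.1)| ≤ r := abs_le_of_sq_le_sq (by nlinarith [sq_nonneg (P.2.1 - Q.2.1), sq_nonneg ((P.2.2 - Q.2.2) / ρ)]) hr0
  have h2 : |P.2.1 - Q.2.1| ≤ r := abs_le_of_sq_le_sq (by nlinarith [sq_nonneg (ρ * (P.1 - Q.1)), sq_nonneg ((P.2.2 - Q.2.2) / ρ)]) hr0
  have h3 : |(P.2.2 - Q.2.2) / ρ| ≤ r := abs_le_of_sq_le_sq (by nlinarith [sq_nonneg (ρ * (P.1 - Q.1)), sq_nonneg (P.2.1 - Q.2.1)]) hr0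
  have a1 : ρ * |(Q.1 : ℝ)| ≤ 100 * Y + r := by
    have : |ρ * (Q.1 : ℝ)| ≤ |ρ * P.1| + |ρ * (P.1 - Q.1)| := by
      have e : ρ * (Q.1 : ℝ) = ρ * P.1 - ρ * (P.1 - Q.1) := by ring
      rw [e]; exact abs_sub _ _
    rw [abs_mul, abs_of_pos hρ0, abs_mul, abs_of_pos hρ0] at this
    have := hP.a
    linarith
  have a2 : |(Q.2.1 : ℝ)| ≤ 100 * Y + r := by
    have : |(Q.2.1 : ℝ)| ≤ |P.2.1| + |P.2.1 - Q.2.1| := by
      have e : (Q.2.1 : ℝ) = P.2.1 - (P.2.1 - Q.2.1) := by ring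
      rw [e]; exact (abs_sub _ _).trans (by ring_nf; rfl)
    have := hP.b
    linarith
  have a3 : |(Q.2.2 : ℝ)| / ρ ≤ 100 * Y + r := by
    have : |(Q.2.2 : ℝ) / ρ| ≤ |P.2.2 / ρ| + |(P.2.2 - Q.2.2) / ρ| := by
      have e : (Q.2.2 : ℝ) / ρ = P.2.2 / ρ - (P.2.2 - Q.2.2) / ρ := by ring
      rw [e]; exact (abs_sub _ _).trans (by ring_nf; rfl)
    rw [abs_div, abs_of_pos hρ0, abs_div, abs_of_pos hρ0] at this
    have h4 : |P.2.2| / ρ ≤ 100 * Y := by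
      rw [div_le_iff₀ hρ0]; exact hP.c
    linarith
  refine ⟨le_trans (by nlinarith [abs_nonneg (Q.1 : ℝ)]) a1, ?_⟩
  have hval : (val Q w : ℝ) = Q.1 * (w.1 : ℝ) ^ 2 + Q.2.1 * w.1 * w.2 + Q.2.2 * (w.2 : ℝ) ^ 2 := by
    unfold val; push_cast; ring
  have hE : 0 ≤ 100 * Y + r := by linarith
  rw [hval]
  have b1 : |(Q.1 : ℝ) * (w.1 : ℝ) ^ 2| ≤ (100 * Y + r) * ((w.1 : ℝ) ^ 2 / ρ) := by
    rw [abs_mul, abs_of_nonneg (sq_nonneg (w.1 : ℝ))]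
    calc |(Q.1 : ℝ)| * (w.1 : ℝ) ^ 2 = (ρ * |(Q.1 : ℝ)|) * ((w.1 : ℝ) ^ 2 / ρ) := by
          field_simp
      _ ≤ _ := by gcongr
  have b3 : |(Q.2.2 : ℝ) * (w.2 : ℝ) ^ 2| ≤ (100 * Y + r) * (ρ * (w.2 : ℝ) ^ 2) := by
    rw [abs_mul, abs_of_nonneg (sq_nonneg (w.2 : ℝ))]
    calc |(Q.2.2 : ℝ)| * (w.2 : ℝ) ^ 2 = (|(Q.2.2 : ℝ)| / ρ) * (ρ * (w.2 : ℝ) ^ 2) := by
          field_simp
      _ ≤ _ := by gcongr
  have b2 : |(Q.2.1 : ℝ) * w.1 * w.2| ≤ (100 * Y + r) * nr ρ w := by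
    have hw : |(w.1 : ℝ) * w.2| ≤ nr ρ w := by
      unfold nr
      have hs : (0 : ℝ) < Real.sqrt ρ := Real.sqrt_pos.2 hρ0
      have hss : Real.sqrt ρ ^ 2 = ρ := Real.sq_sqrt hρ0.le
      have e1 : (w.1 : ℝ) ^ 2 / ρ = ((w.1 : ℝ) / Real.sqrt ρ) ^ 2 := by rw [div_pow, hss]
      have e2 : ρ * (w.2 : ℝ) ^ 2 = (Real.sqrt ρ * w.2) ^ 2 := by rw [mul_pow, hss]
      have e3 : (w.1 : ℝ) * w.2 = ((w.1 : ℝ) / Real.sqrt ρ) * (Real.sqrt ρ * w.2) := by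
        field_simp
      rw [e1, e2, e3, abs_le]
      constructor <;> nlinarith [sq_nonneg ((w.1 : ℝ) / Real.sqrt ρ + Real.sqrt ρ * w.2),
        sq_nonneg ((w.1 : ℝ) / Real.sqrt ρ - Real.sqrt ρ * w.2)]
    calc |(Q.2.1 : ℝ) * w.1 * w.2| = |(Q.2.1 : ℝ)| * |(w.1 : ℝ) * w.2| := by
          rw [mul_assoc, abs_mul]
      _ ≤ _ := by gcongr
  calc |(Q.1 : ℝ) * (w.1 : ℝ) ^ 2 + Q.2.1 * w.1 * w.2 + Q.2.2 * (w.2 : ℝ) ^ 2|
      ≤ |(Q.1 : ℝ) * (w.1 : ℝ) ^ 2| + |(Q.2.1 : ℝ) * w.1 * w.2| + |(Q.2.2 : ℝ) * (w.2 : ℝ) ^ 2| :=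
        abs_add_three _ _ _
    _ ≤ (100 * Y + r) * ((w.1 : ℝ) ^ 2 / ρ) + (100 * Y + r) * nr ρ w +
        (100 * Y + r) * (ρ * (w.2 : ℝ) ^ 2) := by linarith
    _ = 2 * (100 * Y + r) * nr ρ w := by unfold nr; ring

/-- the pointwise majorant -/
theorem diar_pt (hPTW : T_PTW) (hTRV : T_TRV) (e δ : ℝ) (he : 0 < e) (he2 : 2 * e ≤ 1)
    (hδ : 0 < δ) (hδ2 : δ ≤ 1 / 2) : ∃ K : ℝ, 0 ≤ K ∧
    ∀ (Y ρ A M : ℝ) (P : ℝ × ℝ × ℝ) (w : ℤ × ℤ) (Q : QF) (G : ℂ), Q.1 ≠ 0 → val Q w ≠ 0 →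
      1 ≤ Y → 1 ≤ ρ → 1 ≤ A → A ≤ Y ^ (1 + δ) → 0 ≤ M → Bxr Y ρ P →
      Int.gcd w.1 w.2 = 1 → nr ρ w ≤ 2 * A → ‖G‖ ≤ Real.sqrt (M / nr ρ w) * Tw A w Q →
      ga (Y ^ (1 - δ)) ρ P Q * ‖G‖ ^ 2 ≤ 1 / nr ρ w * (M * K * Y ^ (12 * e) *
        Real.exp (-(dq ρ P (rl Q) / (Y ^ (1 - δ)) ^ 2))) := by
  obtain ⟨C1, hC1, H1⟩ := hPTW e he
  obtain ⟨C2, hC2, H2⟩ := hTRV
  refine ⟨C1 ^ 2 * (8 * 10 ^ 4), by positivity, ?_⟩
  intro Y ρ A M P w Q G hQ1 hval hY hρ hA hAY hM hP hw hwA hG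
  have hY0 : 0 < Y := by linarith
  have hρ0 : 0 < ρ := by linarith
  have hA0 : 0 < A := by linarith
  have hw0 : w ≠ 0 := by
    rintro rfl
    simp at hw
  have hV : 0 < nr ρ w := dia_nr_pos hρ0 hw0
  set V := nr ρ w with hVd
  set W : ℝ := Y ^ (1 - δ) with hW
  have hW0 : 0 < W := Real.rpow_pos_of_pos hY0 _
  have hWY : W ≤ Y := by
    rw [hW]
    calc Y ^ (1 - δ) ≤ Y ^ (1 : ℝ) := Real.rpow_le_rpow_of_exponent_le hY (by linarith)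
      _ = Y := Real.rpow_one Y
  have hW2 : W ^ 2 = Y ^ (2 - 2 * δ) := by
    rw [hW, ← Real.rpow_natCast, ← Real.rpow_mul hY0.le]
    congr 1; push_cast; ring
  have hAY2 : A ≤ Y ^ 2 := by
    refine hAY.trans ?_
    rw [← Real.rpow_natCast]
    exact Real.rpow_le_rpow_of_exponent_le hY (by push_cast; linarith)
  set D := dq ρ P (rl Q) with hD
  have hD0 : 0 ≤ D := by rw [hD]; unfold dq; positivity
  set z : ℝ := D / W ^ 2 with hz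
  have hz0 : 0 ≤ z := by positivity
  have hTw0 : 0 ≤ Tw A w Q := (H2 A w Q hA).1
  have hG2 : ‖G‖ ^ 2 ≤ M / V * Tw A w Q ^ 2 := by
    calc ‖G‖ ^ 2 ≤ (Real.sqrt (M / V) * Tw A w Q) ^ 2 := pow_le_pow_left₀ (norm_nonneg _) hG 2
      _ = M / V * Tw A w Q ^ 2 := by rw [mul_pow, Real.sq_sqrt (by positivity)]
  have hY12 : 1 ≤ Y ^ (12 * e) := Real.one_le_rpow hY (by positivity)
  have hga : ga W ρ P Q ≤ Real.exp (-z) * Real.exp (-z) := by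
    unfold ga
    rw [← Real.exp_add]
    apply Real.exp_le_exp.2
    have h3 : π * D / W ^ 2 = π * z := by rw [hz]; ring
    rw [h3]
    nlinarith [Real.pi_gt_three]
  have hga0 : 0 ≤ ga W ρ P Q := by unfold ga; positivity
  have key : ga W ρ P Q * Tw A w Q ^ 2 ≤
      (C1 ^ 2 * (8 * 10 ^ 4)) * Y ^ (12 * e) * Real.exp (-z) := by
    have h1 := H1 A w Q hA hw hQ1 hval
    obtain ⟨s1, s2⟩ := diar_size hY hρ hP w D (Q := Q) rfl
    set r : ℝ := Real.sqrt D with hr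
    have hr0 : 0 ≤ r := Real.sqrt_nonneg _
    have hr2 : r ^ 2 = D := Real.sq_sqrt hD0
    have hE : 0 ≤ 100 * Y + r := by linarith
    set B : ℝ := A * |(Q.1 : ℝ)| * |(val Q w : ℝ)| with hB
    have hB0 : 0 ≤ B := by positivity
    have hzD : D ≤ Y ^ 2 * z := by
      rw [hz, mul_div_assoc', le_div_iff₀ (by positivity)]
      have : W ^ 2 ≤ Y ^ 2 := pow_le_pow_left₀ hW0.le hWY 2
      nlinarith
    have hBle : B ≤ 8 * 10 ^ 4 * Y ^ 6 * (1 + z) := by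
      calc B ≤ A * (100 * Y + r) * (2 * (100 * Y + r) * (2 * A)) := by
            rw [hB]
            gcongr
            exact s2.trans (by gcongr)
        _ = 4 * A ^ 2 * (100 * Y + r) ^ 2 := by ring
        _ ≤ 4 * A ^ 2 * (2 * (10 ^ 4 * Y ^ 2 + D)) := by
            gcongr
            nlinarith [sq_nonneg (100 * Y - r)]
        _ ≤ 4 * (Y ^ 2) ^ 2 * (2 * (10 ^ 4 * Y ^ 2 + Y ^ 2 * z)) := by gcongr
        _ ≤ 4 * (Y ^ 2) ^ 2 * (2 * (10 ^ 4 * Y ^ 2 + 10 ^ 4 * (Y ^ 2 * z))) := by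
            have h7 : 0 ≤ Y ^ 2 * z := mul_nonneg (sq_nonneg Y) hz0
            exact mul_le_mul_of_nonneg_left (by linarith) (by positivity)
        _ = 8 * 10 ^ 4 * Y ^ 6 * (1 + z) := by ring
    have hY6 : (Y ^ 6) ^ (2 * e) = Y ^ (12 * e) := by
      rw [← Real.rpow_natCast Y 6, ← Real.rpow_mul hY0.le]
      congr 1; push_cast; ring
    have h2e : (B ^ e) ^ 2 ≤ 8 * 10 ^ 4 * Y ^ (12 * e) * Real.exp z := by
      have e1 : (B ^ e) ^ 2 = B ^ (2 * e) := by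
        rw [← Real.rpow_natCast, ← Real.rpow_mul hB0]; congr 1; push_cast; ring
      rw [e1]
      calc B ^ (2 * e) ≤ (8 * 10 ^ 4 * Y ^ 6 * (1 + z)) ^ (2 * e) :=
            Real.rpow_le_rpow hB0 hBle (by positivity)
        _ = (8 * 10 ^ 4) ^ (2 * e) * (Y ^ 6) ^ (2 * e) * (1 + z) ^ (2 * e) := by
            rw [Real.mul_rpow (by positivity) (by positivity),
              Real.mul_rpow (by positivity) (by positivity)]
        _ ≤ (8 * 10 ^ 4) ^ (1 : ℝ) * (Y ^ 6) ^ (2 * e) * (1 + z) ^ (1 : ℝ) := by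
            gcongr
            · norm_num
            · linarith
        _ = 8 * 10 ^ 4 * Y ^ (12 * e) * (1 + z) := by
            rw [Real.rpow_one, Real.rpow_one, hY6]
        _ ≤ 8 * 10 ^ 4 * Y ^ (12 * e) * Real.exp z := by
            gcongr
            linarith [Real.add_one_le_exp z]
    have hexp : Real.exp (-z) * Real.exp z = 1 := by rw [← Real.exp_add]; simp
    calc ga W ρ P Q * Tw A w Q ^ 2 ≤ (Real.exp (-z) * Real.exp (-z)) * (C1 * B ^ e) ^ 2 := by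
          gcongr
      _ = C1 ^ 2 * (B ^ e) ^ 2 * (Real.exp (-z) * Real.exp (-z)) := by ring
      _ ≤ C1 ^ 2 * (8 * 10 ^ 4 * Y ^ (12 * e) * Real.exp z) * (Real.exp (-z) * Real.exp (-z)) := by
          gcongr
      _ = C1 ^ 2 * (8 * 10 ^ 4) * Y ^ (12 * e) * (Real.exp (-z) * Real.exp z) * Real.exp (-z) := by
          ring
      _ = (C1 ^ 2 * (8 * 10 ^ 4)) * Y ^ (12 * e) * Real.exp (-z) := by rw [hexp]; ring
  calc ga W ρ P Q * ‖G‖ ^ 2 ≤ ga W ρ P Q * (M / V * Tw A w Q ^ 2) := by gcongr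
    _ = M / V * (ga W ρ P Q * Tw A w Q ^ 2) := by ring
    _ ≤ M / V * ((C1 ^ 2 * (8 * 10 ^ 4)) * Y ^ (12 * e) * Real.exp (-z)) := by gcongr
    _ = _ := by ring

theorem pf_DIAr (hPTW : T_PTW) (hTRV : T_TRV) (hGMA : T_GMA) (hWSM : T_WSM) :
    T_DIAr := by
  classical
  intro ε hε
  refine ⟨1 / 2, by norm_num, fun δ hδ hδ2 => ?_⟩
  set e : ℝ := min (ε / 13) (1 / 2) with he
  have he0 : 0 < e := by positivity
  have he1 : 13 * e ≤ ε := by have := min_le_left (ε / 13) (1 / 2 : ℝ); rw [← he] at this; linarith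
  have he2 : 2 * e ≤ 1 := by have := min_le_right (ε / 13) (1 / 2 : ℝ); rw [← he] at this; linarith
  obtain ⟨K, hK, HK⟩ := diar_pt hPTW hTRV e δ he0 he2 hδ hδ2
  obtain ⟨C3, hC3, H3⟩ := hGMA
  obtain ⟨C4, hC4, H4⟩ := hWSM
  refine ⟨(1 + C4 * (2 + 2 / e)) * K * (C3 * 2), by positivity, ?_⟩
  intro Y ρ A M P p Q₀ F G hY hρ hρY hA hAY hM hP hp hQ₀ hF hG
  have hY0 : 0 < Y := by linarith
  have hρ0 : 0 < ρ := by linarith
  set W : ℝ := Y ^ (1 - δ) with hW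
  have hW1 : 1 ≤ W := Real.one_le_rpow hY (by linarith)
  have hWY : W ≤ Y := by
    rw [hW]
    calc Y ^ (1 - δ) ≤ Y ^ (1 : ℝ) := Real.rpow_le_rpow_of_exponent_le hY (by linarith)
      _ = Y := Real.rpow_one Y
  obtain ⟨hs, hle⟩ := H3 W ρ P hW1 hρ
  set S : ℝ := ∑ w ∈ F, 1 / nr ρ w with hS
  have hS0 : 0 ≤ S := Finset.sum_nonneg fun w _ => by unfold nr; positivity
  have hga0 : ∀ Q, 0 ≤ ga W ρ P Q := fun Q => by unfold ga; positivity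
  have hpt : ∀ Q, (if Cgr p Q Q₀ then ga W ρ P Q * ∑ w ∈ F, ‖G w Q‖ ^ 2 else 0) ≤
      S * (M * K * Y ^ (12 * e)) * Real.exp (-(dq ρ P (rl Q) / W ^ 2)) := by
    intro Q
    split_ifs with hc
    · have hA' : Anis p Q := anis_cgr hc hQ₀
      rw [Finset.mul_sum]
      calc ∑ w ∈ F, ga W ρ P Q * ‖G w Q‖ ^ 2 ≤ ∑ w ∈ F, 1 / nr ρ w * (M * K * Y ^ (12 * e) *
          Real.exp (-(dq ρ P (rl Q) / W ^ 2))) := by
            refine Finset.sum_le_sum fun w hw => ?_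
            exact HK Y ρ A M P w Q (G w Q) (anis_fst hp hA') (anis_val hp hA' (hF w hw).1)
              hY hρ hA hAY hM hP (hF w hw).1 (hF w hw).2.2 (hG w hw Q)
        _ = _ := by rw [← Finset.sum_mul, hS]; ring
    · positivity
  have hsum : Summable (fun Q : QF => if Cgr p Q Q₀ then
      ga W ρ P Q * ∑ w ∈ F, ‖G w Q‖ ^ 2 else 0) := by
    refine Summable.of_nonneg_of_le (fun Q => ?_) hpt (hs.mul_left _)
    split_ifs
    · exact mul_nonneg (hga0 Q) (Finset.sum_nonneg fun w _ => sq_nonneg _)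
    · exact le_rfl
  refine ⟨hsum, ?_⟩
  have hSle : S ≤ (1 + C4 * (2 + 2 / e)) * (ρ * Y ^ e) := by
    have hYe : 1 ≤ Y ^ e := Real.one_le_rpow hY he0.le
    have hlog0 : 0 ≤ Real.log Y := Real.log_nonneg hY
    have h1 : ∑ w ∈ F.filter (fun w => 0 < w.2), 1 / nr ρ w ≤ C4 * (1 + Real.log (2 * A)) :=
      H4 ρ (2 * A) _ hρ (by linarith) (fun w hw =>
        ⟨(Finset.mem_filter.1 hw).2, (hF w (Finset.mem_filter.1 hw).1).2.2⟩)
    have h2 : ∑ w ∈ F.filter (fun w => ¬ 0 < w.2), 1 / nr ρ w ≤ ρ := by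
      have hsub : F.filter (fun w => ¬ 0 < w.2) ⊆ {(1, 0)} := by
        intro w hw
        obtain ⟨hw1, hw2⟩ := Finset.mem_filter.1 hw
        rcases (hF w hw1).2.1 with h | h
        · exact absurd h hw2
        · rw [Finset.mem_singleton]; exact h
      calc ∑ w ∈ F.filter (fun w => ¬ 0 < w.2), 1 / nr ρ w ≤
          ∑ w ∈ ({(1, 0)} : Finset (ℤ × ℤ)), 1 / nr ρ w :=
            Finset.sum_le_sum_of_subset_of_nonneg hsub fun w _ _ => by unfold nr; positivity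
        _ = ρ := by
            rw [Finset.sum_singleton]; unfold nr; simp
    have h3 : Real.log (2 * A) ≤ 1 + 2 * (Y ^ e / e) := by
      have hA0 : 0 < A := by linarith
      rw [Real.log_mul (by norm_num) hA0.ne']
      have h4 : Real.log A ≤ 2 * Real.log Y := by
        have : Real.log A ≤ Real.log (Y ^ (1 + δ)) := Real.log_le_log hA0 hAY
        rw [Real.log_rpow hY0] at this
        nlinarith
      have h5 : Real.log Y ≤ Y ^ e / e := Real.log_le_rpow_div hY0.le he0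
      have h6 : Real.log 2 ≤ 1 := by
        have := Real.log_two_lt_d9; linarith
      linarith
    rw [hS, ← Finset.sum_filter_add_sum_filter_not F (fun w => 0 < w.2)]
    have hρY : 1 ≤ ρ * Y ^ e := by nlinarith
    have hb : Y ^ e ≤ ρ * Y ^ e := by nlinarith
    calc _ ≤ C4 * (1 + Real.log (2 * A)) + ρ := add_le_add h1 h2
      _ ≤ C4 * (1 + (1 + 2 * (Y ^ e / e))) + ρ := by gcongr
      _ = C4 * (2 * 1 + 2 / e * Y ^ e) + ρ * 1 := by ring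
      _ ≤ C4 * (2 * (ρ * Y ^ e) + 2 / e * (ρ * Y ^ e)) + ρ * Y ^ e := by gcongr
      _ = _ := by ring
  have hW3 : W ^ 2 * (W + ρ) ≤ 2 * Y ^ 3 := by
    calc W ^ 2 * (W + ρ) ≤ Y ^ 2 * (Y + Y) := by gcongr
      _ = 2 * Y ^ 3 := by ring
  calc ∑' Q : QF, (if Cgr p Q Q₀ then ga W ρ P Q * ∑ w ∈ F, ‖G w Q‖ ^ 2 else 0)
      ≤ ∑' Q : QF, S * (M * K * Y ^ (12 * e)) * Real.exp (-(dq ρ P (rl Q) / W ^ 2)) :=
        hsum.tsum_le_tsum hpt (hs.mul_left _)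
    _ = S * (M * K * Y ^ (12 * e)) * ∑' Q : QF, Real.exp (-(dq ρ P (rl Q) / W ^ 2)) := by
        rw [tsum_mul_left]
    _ ≤ S * (M * K * Y ^ (12 * e)) * (C3 * (2 * Y ^ 3)) := by
        gcongr
        calc _ ≤ C3 * W ^ 2 * (W + ρ) := hle
          _ = C3 * (W ^ 2 * (W + ρ)) := by ring
          _ ≤ C3 * (2 * Y ^ 3) := by gcongr
    _ ≤ ((1 + C4 * (2 + 2 / e)) * (ρ * Y ^ e)) * (M * K * Y ^ (12 * e)) * (C3 * (2 * Y ^ 3)) := by
        gcongr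
    _ = (1 + C4 * (2 + 2 / e)) * K * (C3 * 2) * (Y ^ e * Y ^ (12 * e) * Y ^ 3) * ρ * M := by ring
    _ = (1 + C4 * (2 + 2 / e)) * K * (C3 * 2) * Y ^ (3 + 13 * e) * ρ * M := by
        congr 3
        rw [← Real.rpow_natCast Y 3, ← Real.rpow_add hY0, ← Real.rpow_add hY0]
        congr 1; push_cast; ring
    _ ≤ (1 + C4 * (2 + 2 / e)) * K * (C3 * 2) * Y ^ (3 + ε) * ρ * M := by
        gcongr

end Pool.Agent.H58.DF
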