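import Pool.Agent.H89.DF.TargetsK
import Pool.Agent.H5.FM.GRP

/-!
# GRPr: grouping of the frequencies in blocks, with a shift
-/

set_option autoImplicit false

open MeasureTheory Set Filter
open scoped Real Matrix MatrixGroups
open Pool.Agent.H31.CN Pool.Agent.H89.FM Pool.Agent.H89.FC Pool.Agent.H89.DF
open Pool.Agent.H5.FM

namespace Pool.Agent.H58.DF

/-- one block, fixed frequencies of the lattices -/
theorem grp_fixr (C₀ : ℝ)
    (hcnt : ∀ (ρ η Λ A B : ℝ) (v w : ℤ × ℤ) (μ : ℝ × ℝ × ℝ)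
    (F : Finset ((ℕ × ℕ) × (ℕ × ℕ) × QF)), 0 < ρ → 0 < η → 1 ≤ Λ → 1 ≤ A → 1 ≤ B →
    Int.gcd v.1 v.2 = 1 → Int.gcd w.1 w.2 = 1 → det v w ≠ 0 →
    η * nr ρ v ≤ Λ → η * nr ρ w ≤ Λ →
    (∀ x ∈ F, (x.1.1 : ℝ) ≤ A ∧ x.1.2 < x.1.1 ∧ Nat.Coprime x.1.2 x.1.1 ∧
      (x.2.1.1 : ℝ) ≤ B ∧ x.2.1.2 < x.2.1.1 ∧ Nat.Coprime x.2.1.2 x.2.1.1 ∧
      dz ρ (rl x.2.2 + μ + ((x.1.2 : ℝ) / x.1.1) • sq2 v -
        ((x.2.1.2 : ℝ) / x.2.1.1) • sq2 w) ≤ η ^ 2) →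
    (F.card : ℝ) ≤ C₀ * Λ ^ 3 * Real.sqrt (nr ρ v * nr ρ w) *
      (1 + η * A ^ 2 / nr ρ v) * (1 + η * B ^ 2 / nr ρ w))
    {ρ η Λ A : ℝ} {μ : ℕ × ℕ → ℝ × ℝ × ℝ} (θ : ℝ × ℝ × ℝ) (hρ : 1 ≤ ρ) (hη : 0 < η) (hΛ : 1 ≤ Λ)
    (v w : ℤ × ℤ) (f f' g g' k k' : ℕ) (hv : Int.gcd v.1 v.2 = 1) (hw : Int.gcd w.1 w.2 = 1)
    (hdet : det v w ≠ 0) (hv2 : η * nr ρ v ≤ Λ) (hw2 : η * nr ρ w ≤ Λ)
    (B B' : Finset Ix) (hB : ∀ x ∈ B, Iv ρ A x ∧ x.1 = v ∧ x.2.1 = (f, g) ∧ Nat.log 2 x.2.2.1 = k)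
    (hB' : ∀ x ∈ B', Iv ρ A x ∧ x.1 = w ∧ x.2.1 = (f', g') ∧ Nat.log 2 x.2.2.1 = k') :
    ∑ x ∈ B, ∑ y ∈ B', (nz ρ η (lam μ x - lam μ y + θ) : ℝ) ≤
      C₀ * Λ ^ 3 * Real.sqrt (nr ρ v * nr ρ w) *
      (1 + η * (2 ^ (k + 1)) ^ 2 / nr ρ v) * (1 + η * (2 ^ (k' + 1)) ^ 2 / nr ρ w) := by
  classical
  choose S hS hS2 using fun ξ : ℝ × ℝ × ℝ => grp_set ρ η ξ
  obtain ⟨U, hU⟩ : ∃ U : Finset ((_ : Ix × Ix) × QF),
      U = (B ×ˢ B').sigma fun p => S (lam μ p.1 - lam μ p.2 + θ) := ⟨_, rfl⟩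
  have hmem : ∀ u ∈ U, u.1.1 ∈ B ∧ u.1.2 ∈ B' ∧ u.2 ∈ S (lam μ u.1.1 - lam μ u.1.2 + θ) := by
    intro u hu
    rw [hU, Finset.mem_sigma, Finset.mem_product] at hu
    exact ⟨hu.1.1, hu.1.2, hu.2⟩
  have hinj : Set.InjOn (fun u : ((_ : Ix × Ix) × QF) => (u.1.1.2.2, u.1.2.2.2, u.2)) U := by
    rintro ⟨⟨x, y⟩, Z⟩ hu ⟨⟨x', y'⟩, Z'⟩ hu' h
    obtain ⟨h1, h2, -⟩ := hmem _ hu
    obtain ⟨h1', h2', -⟩ := hmem _ hu'
    simp only [Prod.mk.injEq] at h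
    obtain ⟨e1, e2, e3⟩ := h
    have ex : x = x' := by
      refine Prod.ext ((hB x h1).2.1.trans (hB x' h1').2.1.symm) (Prod.ext ?_ e1)
      exact (hB x h1).2.2.1.trans (hB x' h1').2.2.1.symm
    have ey : y = y' := by
      refine Prod.ext ((hB' y h2).2.1.trans (hB' y' h2').2.1.symm) (Prod.ext ?_ e2)
      exact (hB' y h2).2.2.1.trans (hB' y' h2').2.2.1.symm
    rw [ex, ey, e3]
  have hcard : ((U.image fun u : ((_ : Ix × Ix) × QF) => (u.1.1.2.2, u.1.2.2.2, u.2)).card : ℝ) =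
      ∑ x ∈ B, ∑ y ∈ B', (nz ρ η (lam μ x - lam μ y + θ) : ℝ) := by
    rw [Finset.card_image_of_injOn hinj, hU, Finset.card_sigma]
    push_cast
    rw [Finset.sum_product]
    refine Finset.sum_congr rfl fun x _ => Finset.sum_congr rfl fun y _ => ?_
    rw [hS]
  rw [← hcard]
  have hpow : ∀ k : ℕ, (1 : ℝ) ≤ 2 ^ (k + 1) := fun k => one_le_pow₀ (by norm_num)
  have hlog : ∀ m k : ℕ, Nat.log 2 m = k → (m : ℝ) ≤ 2 ^ (k + 1) := by
    intro m k h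
    have h1 : m < 2 ^ (k + 1) := by
      rw [← h]
      exact Nat.lt_pow_succ_log_self (by norm_num) m
    exact_mod_cast h1.le
  refine hcnt ρ η Λ (2 ^ (k + 1)) (2 ^ (k' + 1)) v w (μ (f, g) - μ (f', g') + θ) _ (by linarith) hη hΛ
    (hpow k) (hpow k') hv hw hdet hv2 hw2 ?_
  intro t ht
  rw [Finset.mem_image] at ht
  obtain ⟨⟨⟨x, y⟩, Z⟩, hu, rfl⟩ := ht
  obtain ⟨h1, h2, h3⟩ := hmem _ hu
  obtain ⟨i1, i2, i3, i4⟩ := hB x h1
  obtain ⟨j1, j2, j3, j4⟩ := hB' y h2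
  refine ⟨hlog _ _ i4, i1.j, i1.cop, hlog _ _ j4, j1.j, j1.cop, ?_⟩
  have h4 := hS2 _ _ h3
  have e : rl Z + (lam μ x - lam μ y + θ) = rl Z + (μ (f, g) - μ (f', g') + θ) +
      ((x.2.2.2 : ℝ) / x.2.2.1) • sq2 v - ((y.2.2.2 : ℝ) / y.2.2.1) • sq2 w := by
    unfold lam
    rw [i2, i3, j2, j3]
    abel
  rw [← e]
  exact h4

/-- GRPr -/
theorem pf_GRPr (hCNT : T_CNT) : T_GRPr := by
  classical
  obtain ⟨C₀, hC₀, hcnt⟩ := hCNT
  refine ⟨16 * C₀, by positivity, ?_⟩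
  intro ρ η Λ A M I c μ θ hρ hη hΛ hA hM hIv hηn hc hcM
  obtain ⟨blk, hblk⟩ : ∃ blk : Ix → (ℤ × ℤ) × ℕ × ℕ,
      blk = fun x => (x.1, x.2.1.1, Nat.log 2 x.2.2.1) := ⟨_, rfl⟩
  rw [← hblk]
  obtain ⟨T, hT⟩ : ∃ T, T = I.image blk := ⟨_, rfl⟩
  rw [← hT]
  have hmaps : ∀ x ∈ I, blk x ∈ T := fun x hx => by
    rw [hT]
    exact Finset.mem_image_of_mem _ hx
  have hb1 : ∀ x, (blk x).1 = x.1 := fun x => by rw [hblk]
  -- the key estimate
  have key : ∀ a ∈ T, ∀ b ∈ T, b.1 ≠ a.1 →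
      ∑ x ∈ I.filter (fun x => blk x = a), ∑ y ∈ I.filter (fun y => blk y = b),
        c x * c y * nz ρ η (lam μ x - lam μ y + θ) ≤
      16 * C₀ * Λ ^ 3 * M * (hw ρ η a * hw ρ η b) := by
    intro a ha b hb hab
    rw [hT, Finset.mem_image] at ha hb
    obtain ⟨x₀, hx₀, hxa⟩ := ha
    obtain ⟨y₀, hy₀, hyb⟩ := hb
    obtain ⟨v, f, k⟩ := a
    obtain ⟨w, f', k'⟩ := b
    have hbl : ∀ (x : Ix) (v : ℤ × ℤ) (f k : ℕ), blk x = (v, f, k) →
        x.1 = v ∧ x.2.1.1 = f ∧ Nat.log 2 x.2.2.1 = k := by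
      intro x v f k h
      rw [hblk] at h
      simp only [Prod.mk.injEq] at h
      exact h
    obtain ⟨a1, a2, a3⟩ := hbl _ _ _ _ hxa
    obtain ⟨b1, b2, b3⟩ := hbl _ _ _ _ hyb
    have hab' : w ≠ v := hab
    have hIx := hIv x₀ hx₀
    have hIy := hIv y₀ hy₀
    have hv : Int.gcd v.1 v.2 = 1 := by rw [← a1]; exact hIx.prim
    have hwg : Int.gcd w.1 w.2 = 1 := by rw [← b1]; exact hIy.prim
    have sv : 0 < v.2 ∨ v = (1, 0) := by rw [← a1]; exact hIx.sgn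
    have sw : 0 < w.2 ∨ w = (1, 0) := by rw [← b1]; exact hIy.sgn
    have hdet := grp_det hv hwg sv sw hab'
    have hV := grp_nr_pos hρ hv
    have hV' := grp_nr_pos hρ hwg
    have hη1 : η * nr ρ v ≤ Λ := by rw [← a1]; exact hηn x₀ hx₀
    have hη2 : η * nr ρ w ≤ Λ := by rw [← b1]; exact hηn y₀ hy₀
    have hf : 0 < f := by
      have h1 := hIx.g
      rw [a2] at h1
      by_contra h2
      have h3 : f = 0 := by omega
      rw [h3] at h1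
      simp at h1
    have hf' : 0 < f' := by
      have h1 := hIy.g
      rw [b2] at h1
      by_contra h2
      have h3 : f' = 0 := by omega
      rw [h3] at h1
      simp at h1
    have hfR : (0 : ℝ) < f := by exact_mod_cast hf
    have hfR' : (0 : ℝ) < f' := by exact_mod_cast hf'
    have hcb : ∀ (x : Ix) (v : ℤ × ℤ) (f k : ℕ), x ∈ I → 0 < nr ρ v → (0 : ℝ) < f →
        blk x = (v, f, k) → c x ≤ Real.sqrt (M / nr ρ v) / ((f : ℝ) ^ 2 * 2 ^ k) := by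
      intro x v f k hx hV hf h
      obtain ⟨h1, h2, h3⟩ := hbl _ _ _ _ h
      have h4 := hcM x hx
      rw [h1, h2] at h4
      refine grp_c hV hf ?_ h4
      have hm : x.2.2.1 ≠ 0 := by
        have := (hIv x hx).j
        omega
      have h5 := Nat.pow_log_le_self 2 hm
      rw [h3] at h5
      exact_mod_cast h5
    -- the first step
    have s1 : ∑ x ∈ I.filter (fun x => blk x = (v, f, k)),
        ∑ y ∈ I.filter (fun y => blk y = (w, f', k')),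
        c x * c y * nz ρ η (lam μ x - lam μ y + θ) ≤
        ∑ x ∈ I.filter (fun x => blk x = (v, f, k)),
        ∑ y ∈ I.filter (fun y => blk y = (w, f', k')),
        Real.sqrt (M / nr ρ v) / ((f : ℝ) ^ 2 * 2 ^ k) *
          (Real.sqrt (M / nr ρ w) / ((f' : ℝ) ^ 2 * 2 ^ k')) *
            (nz ρ η (lam μ x - lam μ y + θ) : ℝ) := by
      refine Finset.sum_le_sum fun x hx => Finset.sum_le_sum fun y hy => ?_
      rw [Finset.mem_filter] at hx hy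
      refine mul_le_mul_of_nonneg_right ?_ (Nat.cast_nonneg _)
      exact mul_le_mul (hcb x v f k hx.1 hV hfR hx.2) (hcb y w f' k' hy.1 hV' hfR' hy.2)
        (hc y hy.1) (by positivity)
    refine s1.trans ?_
    simp_rw [← Finset.mul_sum]
    have s2 : ∑ x ∈ I.filter (fun x => blk x = (v, f, k)),
        ∑ y ∈ I.filter (fun y => blk y = (w, f', k')), (nz ρ η (lam μ x - lam μ y + θ) : ℝ) ≤
        ((f ^ 2 : ℕ) : ℝ) * ((f' ^ 2 : ℕ) : ℝ) *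
          (C₀ * Λ ^ 3 * Real.sqrt (nr ρ v * nr ρ w) *
          (1 + η * (2 ^ (k + 1)) ^ 2 / nr ρ v) * (1 + η * (2 ^ (k' + 1)) ^ 2 / nr ρ w)) := by
      refine grp_sum ?_ ?_ ?_
      · intro x hx
        rw [Finset.mem_filter] at hx
        have h1 := (hIv x hx.1).g
        rw [(hbl _ _ _ _ hx.2).2.1] at h1
        exact h1
      · intro x hx
        rw [Finset.mem_filter] at hx
        have h1 := (hIv x hx.1).g
        rw [(hbl _ _ _ _ hx.2).2.1] at h1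
        exact h1
      · intro g _ g' _
        refine grp_fixr (A := A) C₀ hcnt θ hρ hη hΛ v w f f' g g' k k' hv hwg hdet hη1 hη2 _ _ ?_ ?_
        · intro x hx
          rw [Finset.mem_filter, Finset.mem_filter] at hx
          obtain ⟨h1, h2, h3⟩ := hbl _ _ _ _ hx.1.2
          exact ⟨hIv x hx.1.1, h1, Prod.ext h2 hx.2, h3⟩
        · intro x hx
          rw [Finset.mem_filter, Finset.mem_filter] at hx
          obtain ⟨h1, h2, h3⟩ := hbl _ _ _ _ hx.1.2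
          exact ⟨hIv x hx.1.1, h1, Prod.ext h2 hx.2, h3⟩
    refine (mul_le_mul_of_nonneg_left s2 (by positivity)).trans ?_
    have e4 : ∀ k : ℕ, (4 : ℝ) ^ k = (2 ^ k) ^ 2 := fun k => by
      rw [← pow_mul, mul_comm, pow_mul]
      norm_num
    unfold hw
    simp only
    rw [e4, e4, pow_succ, pow_succ]
    push_cast
    exact grp_num hC₀ hΛ hM hη hV hV' hfR hfR' (by positivity) (by positivity)
  -- the sum over the blocks
  have e1 : ∑ x ∈ I, ∑ y ∈ I.filter (fun y => y.1 ≠ x.1), c x * c y * nz ρ η (lam μ x - lam μ y + θ) =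
      ∑ a ∈ T, ∑ b ∈ T.filter (fun b => b.1 ≠ a.1),
        ∑ x ∈ I.filter (fun x => blk x = a), ∑ y ∈ I.filter (fun y => blk y = b),
          c x * c y * nz ρ η (lam μ x - lam μ y + θ) := by
    rw [← Finset.sum_fiberwise_of_maps_to (s := I) (t := T) (g := blk) hmaps]
    refine Finset.sum_congr rfl fun a _ => ?_
    rw [Finset.sum_comm (s := T.filter (fun b => b.1 ≠ a.1))]
    refine Finset.sum_congr rfl fun x hx => ?_
    rw [Finset.mem_filter] at hx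
    have hx1 : x.1 = a.1 := by rw [← hx.2, hb1]
    rw [hx1]
    have hm2 : ∀ y ∈ I.filter (fun y => y.1 ≠ a.1), blk y ∈ T.filter (fun b => b.1 ≠ a.1) := by
      intro y hy
      rw [Finset.mem_filter] at hy ⊢
      exact ⟨hmaps y hy.1, by rw [hb1]; exact hy.2⟩
    rw [← Finset.sum_fiberwise_of_maps_to (s := I.filter (fun y => y.1 ≠ a.1))
      (t := T.filter (fun b => b.1 ≠ a.1)) (g := blk) hm2]
    refine Finset.sum_congr rfl fun b hb => ?_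
    rw [Finset.mem_filter] at hb
    refine Finset.sum_congr ?_ fun _ _ => rfl
    ext y
    simp only [Finset.mem_filter]
    constructor
    · rintro ⟨⟨h1, -⟩, h2⟩
      exact ⟨h1, h2⟩
    · rintro ⟨h1, h2⟩
      exact ⟨⟨h1, by rw [← hb1, h2]; exact hb.2⟩, h2⟩
  rw [e1, Finset.mul_sum]
  refine Finset.sum_le_sum fun a ha => ?_
  rw [Finset.mul_sum]
  refine Finset.sum_le_sum fun b hb => ?_
  rw [Finset.mem_filter] at hb
  exact key a ha b hb.1 hb.2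

end Pool.Agent.H58.DF
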