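import Pool.Agent.H89.DF.TargetsK
import Pool.Agent.H29.FM.OFF

/-!
# OFFr: the off-diagonal terms, with a shift
-/

set_option autoImplicit false

open MeasureTheory Set Filter
open scoped Real Matrix MatrixGroups
open Pool.Agent.H31.CN Pool.Agent.H89.FM Pool.Agent.H89.FC Pool.Agent.H89.DF
open Pool.Agent.H29.FM

namespace Pool.Agent.H58.DF

/-- Interchange of the sums. -/
theorem interchanger (hPN3 : T_PN3) (W ρ : ℝ) (P : ℝ × ℝ × ℝ) (hW : 0 < W) (hρ : 0 < ρ)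
    {ι : Type} (I : Finset ι) (J : ι → Finset ι) (c : ι → ℂ) (l : ι → ℝ × ℝ × ℝ) (θ : ℝ × ℝ × ℝ) :
    ‖∑' Q : QF, (ga W ρ P Q : ℂ) * ∑ x ∈ I, ∑ y ∈ J x,
        c x * (starRingEnd ℂ) (c y) * ee Q (l x - l y + θ)‖ ≤
      ∑ x ∈ I, ∑ y ∈ J x, ‖c x‖ * ‖c y‖ * (W ^ 3 * ps W ρ (l x - l y + θ)) := by
  have hs : ∀ ξ : ℝ × ℝ × ℝ, Summable fun Q : QF => (ga W ρ P Q : ℂ) * ee Q ξ := by
    intro ξ
    refine Summable.of_norm ?_
    have : (fun Q : QF => ‖(ga W ρ P Q : ℂ) * ee Q ξ‖) = fun Q => ga W ρ P Q := by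
      funext Q
      rw [norm_mul, norm_ee, mul_one, Complex.norm_real, Real.norm_of_nonneg (ga_nonneg _ _ _ _)]
    rw [this]
    exact (hPN3 W ρ P ξ hW hρ).1
  have e1 : ∑' Q : QF, (ga W ρ P Q : ℂ) * ∑ x ∈ I, ∑ y ∈ J x,
        c x * (starRingEnd ℂ) (c y) * ee Q (l x - l y + θ) =
      ∑ x ∈ I, ∑ y ∈ J x, c x * (starRingEnd ℂ) (c y) *
        ∑' Q : QF, (ga W ρ P Q : ℂ) * ee Q (l x - l y + θ) := by
    have e2 : (fun Q : QF => (ga W ρ P Q : ℂ) * ∑ x ∈ I, ∑ y ∈ J x,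
        c x * (starRingEnd ℂ) (c y) * ee Q (l x - l y + θ)) =
        fun Q => ∑ x ∈ I, ∑ y ∈ J x, (c x * (starRingEnd ℂ) (c y)) *
          ((ga W ρ P Q : ℂ) * ee Q (l x - l y + θ)) := by
      funext Q
      rw [Finset.mul_sum]
      refine Finset.sum_congr rfl fun x _ => ?_
      rw [Finset.mul_sum]
      refine Finset.sum_congr rfl fun y _ => ?_
      ring
    rw [e2]
    rw [Summable.tsum_finsetSum fun x _ => summable_sum fun y _ => (hs _).mul_left _]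
    refine Finset.sum_congr rfl fun x _ => ?_
    rw [Summable.tsum_finsetSum fun y _ => (hs _).mul_left _]
    refine Finset.sum_congr rfl fun y _ => ?_
    rw [tsum_mul_left]
  rw [e1]
  refine (norm_sum_le _ _).trans (Finset.sum_le_sum fun x _ => ?_)
  refine (norm_sum_le _ _).trans (Finset.sum_le_sum fun y _ => ?_)
  rw [norm_mul, norm_mul, RCLike.norm_conj]
  exact mul_le_mul_of_nonneg_left (hPN3 W ρ P _ hW hρ).2.2 (by positivity)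

/-- Row OFFr. -/
theorem pf_OFFr (hPN3 : T_PN3) (hTAL : T_TAL) (hNI : T_NI) (hGRP : T_GRPr) (hHG : T_HG)
    (hH1 : T_H1) : T_OFFr := by
  classical
  obtain ⟨C₁', hTAL⟩ := hTAL
  obtain ⟨C₆, hC₆, hNI⟩ := hNI
  obtain ⟨C₂, hC₂, hGRP⟩ := hGRP
  obtain ⟨C₃, hC₃, hHG⟩ := hHG
  obtain ⟨C₄, hC₄, hH1⟩ := hH1
  set C₁ : ℝ := max C₁' 0 with hC₁
  have hC₁0 : 0 ≤ C₁ := le_max_right _ _
  intro ε hε
  refine ⟨min (1 / 8) (ε / 14), by positivity, fun δ hδ hδd => ?_⟩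
  have hδ8 : δ ≤ 1 / 8 := hδd.trans (min_le_left _ _)
  have hδε : δ ≤ ε / 14 := hδd.trans (min_le_right _ _)
  obtain ⟨C₇, hC₇, hexp⟩ := pow_exp δ hδ
  set C₅ : ℝ := (1 + 6 / δ) ^ 3 with hC₅
  have hC₅0 : 0 ≤ C₅ := by positivity
  set CH : ℝ := (C₃ + C₄) * 2 * C₅ with hCH
  have hCH0 : 0 ≤ CH := by positivity
  refine ⟨24 * C₂ * CH ^ 2 + C₁ * C₆ ^ 2 * C₇, by positivity, ?_⟩
  intro Y ρ A M P θ I c μ hY hρ hρY hA hAY hM hI hc
  have hY0 : 0 < Y := by linarith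
  have hρ0 : 0 < ρ := by linarith
  set W : ℝ := Y ^ (1 - δ) with hW
  set η : ℝ := Y ^ (2 * δ - 1) with hη
  have hW1 : 1 ≤ W := Real.one_le_rpow hY (by linarith)
  have hW0 : 0 < W := by linarith
  have hη0 : 0 < η := Real.rpow_pos_of_pos hY0 _
  have hYd : ∀ a : ℝ, 0 ≤ a → 1 ≤ Y ^ a := fun a ha => Real.one_le_rpow hY ha
  have hYp : ∀ a : ℝ, 0 < Y ^ a := fun a => Real.rpow_pos_of_pos hY0 a
  -- the facts on the indices
  have hf1 : ∀ x ∈ I, (1 : ℝ) ≤ (x.2.1.1 : ℝ) := by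
    intro x hx
    have h := (hI x hx).g
    have : x.2.1.1 ≠ 0 := by
      intro h0
      rw [h0] at h
      simp at h
    exact_mod_cast Nat.one_le_iff_ne_zero.2 this
  have hm1 : ∀ x ∈ I, (1 : ℝ) ≤ (x.2.2.1 : ℝ) := by
    intro x hx
    have h := (hI x hx).j
    exact_mod_cast Nat.one_le_iff_ne_zero.2 (by omega)
  have hw0 : ∀ x ∈ I, 1 / ρ ≤ nr ρ x.1 := by
    intro x hx
    have hx' := hI x hx
    unfold nr
    rcases hx'.sgn with h | h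
    · have h3 : (1 : ℝ) ≤ (x.1.2 : ℝ) := by exact_mod_cast h
      have h4 : 0 ≤ (x.1.1 : ℝ) ^ 2 / ρ := by positivity
      have h5 : 1 / ρ ≤ 1 := by rw [div_le_one hρ0]; exact hρ
      nlinarith
    · rw [h]
      norm_num
  have hnr0 : ∀ x ∈ I, 0 < nr ρ x.1 := fun x hx => lt_of_lt_of_le (by positivity) (hw0 x hx)
  have hnrA : ∀ x ∈ I, nr ρ x.1 ≤ 2 * A := by
    intro x hx
    have h1 := (hI x hx).sh
    have h2 := (hI x hx).le
    have h3 := hf1 x hx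
    have h4 := hm1 x hx
    have h5 := hnr0 x hx
    nlinarith
  have hηA : η * A ≤ Y ^ (3 * δ) := by
    calc η * A ≤ Y ^ (2 * δ - 1) * Y ^ (1 + δ) := mul_le_mul_of_nonneg_left hAY hη0.le
      _ = Y ^ (3 * δ) := by rw [← Real.rpow_add hY0]; congr 1; ring
  have hΛ : ∀ x ∈ I, η * nr ρ x.1 ≤ 2 * Y ^ (3 * δ) := by
    intro x hx
    calc η * nr ρ x.1 ≤ η * (2 * A) := mul_le_mul_of_nonneg_left (hnrA x hx) hη0.le
      _ = 2 * (η * A) := by ring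
      _ ≤ 2 * Y ^ (3 * δ) := by linarith
  -- the bound of the coefficients
  have hcM : ∀ x ∈ I, ‖c x‖ ^ 2 ≤ M * ρ := by
    intro x hx
    have h1 := hc x hx
    have h2 := hf1 x hx
    have h3 := hm1 x hx
    have h4 := hw0 x hx
    have h5 : (1 : ℝ) ≤ (x.2.1.1 : ℝ) ^ 4 * (x.2.2.1 : ℝ) ^ 2 := by
      have := one_le_pow₀ (n := 4) h2
      have := one_le_pow₀ (n := 2) h3
      nlinarith
    have h6 : ‖c x‖ ^ 2 * (1 / ρ) ≤ M := by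
      calc ‖c x‖ ^ 2 * (1 / ρ) ≤ ‖c x‖ ^ 2 * nr ρ x.1 :=
            mul_le_mul_of_nonneg_left h4 (by positivity)
        _ ≤ ‖c x‖ ^ 2 * nr ρ x.1 * ((x.2.1.1 : ℝ) ^ 4 * (x.2.2.1 : ℝ) ^ 2) := by
            have : 0 ≤ ‖c x‖ ^ 2 * nr ρ x.1 := mul_nonneg (by positivity) (hnr0 x hx).le
            nlinarith
        _ = ‖c x‖ ^ 2 * (x.2.1.1 : ℝ) ^ 4 * (x.2.2.1 : ℝ) ^ 2 * nr ρ x.1 := by ring
        _ ≤ M := h1
    rw [mul_one_div, div_le_iff₀ hρ0] at h6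
    exact h6
  have hcs : ∀ x ∈ I, ∀ y ∈ I, ‖c x‖ * ‖c y‖ ≤ M * ρ := by
    intro x hx y hy
    have h1 := hcM x hx
    have h2 := hcM y hy
    nlinarith [sq_nonneg (‖c x‖ - ‖c y‖)]
  -- first bound
  refine (interchanger hPN3 W ρ P hW0 hρ0 I (fun x => I.filter (fun y => y.1 ≠ x.1)) c
    (lam μ) θ).trans ?_
  set E : ℝ := Real.exp (-(π * Y ^ (2 * δ) / 2)) with hE
  have hE0 : 0 < E := Real.exp_pos _
  have hWη : W ^ 2 * η ^ 2 = Y ^ (2 * δ) := by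
    rw [hW, hη, ← mul_pow, ← Real.rpow_add hY0, ← Real.rpow_natCast, ← Real.rpow_mul hY0.le]
    congr 1
    push_cast
    ring
  have hps : ∀ ξ, ps W ρ ξ ≤ nz ρ η ξ + C₁ * ρ * E := by
    intro ξ
    have h := (hTAL W ρ η ξ hW1 hρ hη0.le).2
    have e : Real.exp (-(π * W ^ 2 * η ^ 2 / 2)) = E := by
      rw [hE]
      congr 2
      rw [mul_assoc π, hWη]
    rw [e] at h
    refine h.trans ?_
    have h1 : C₁' * ρ * E ≤ C₁ * ρ * E :=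
      mul_le_mul_of_nonneg_right (mul_le_mul_of_nonneg_right (le_max_left _ _) hρ0.le) hE0.le
    linarith
  have hstep : ∑ x ∈ I, ∑ y ∈ I.filter (fun y => y.1 ≠ x.1),
        ‖c x‖ * ‖c y‖ * (W ^ 3 * ps W ρ (lam μ x - lam μ y + θ)) ≤
      W ^ 3 * (∑ x ∈ I, ∑ y ∈ I.filter (fun y => y.1 ≠ x.1),
        ‖c x‖ * ‖c y‖ * nz ρ η (lam μ x - lam μ y + θ)) +
      W ^ 3 * (∑ x ∈ I, ∑ y ∈ I.filter (fun y => y.1 ≠ x.1), M * ρ * (C₁ * ρ * E)) := by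
    rw [Finset.mul_sum, Finset.mul_sum, ← Finset.sum_add_distrib]
    refine Finset.sum_le_sum fun x hx => ?_
    rw [Finset.mul_sum, Finset.mul_sum, ← Finset.sum_add_distrib]
    refine Finset.sum_le_sum fun y hy => ?_
    have hyI : y ∈ I := (Finset.mem_filter.1 hy).1
    have h1 := hps (lam μ x - lam μ y + θ)
    have h2 := hcs x hx y hyI
    have h3 : 0 ≤ ‖c x‖ * ‖c y‖ := by positivity
    have h4 : 0 ≤ C₁ * ρ * E := by positivity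
    have h5 : 0 ≤ W ^ 3 := by positivity
    calc ‖c x‖ * ‖c y‖ * (W ^ 3 * ps W ρ (lam μ x - lam μ y + θ))
        = W ^ 3 * (‖c x‖ * ‖c y‖ * ps W ρ (lam μ x - lam μ y + θ)) := by ring
      _ ≤ W ^ 3 * (‖c x‖ * ‖c y‖ * (nz ρ η (lam μ x - lam μ y + θ) + C₁ * ρ * E)) :=
          mul_le_mul_of_nonneg_left (mul_le_mul_of_nonneg_left h1 h3) h5
      _ = W ^ 3 * (‖c x‖ * ‖c y‖ * nz ρ η (lam μ x - lam μ y + θ)) +
          W ^ 3 * (‖c x‖ * ‖c y‖ * (C₁ * ρ * E)) := by ring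
      _ ≤ W ^ 3 * (‖c x‖ * ‖c y‖ * nz ρ η (lam μ x - lam μ y + θ)) +
          W ^ 3 * (M * ρ * (C₁ * ρ * E)) := by
          have := mul_le_mul_of_nonneg_left (mul_le_mul_of_nonneg_right h2 h4) h5
          linarith
  refine hstep.trans ?_
  -- the tail
  have hW3 : W ^ 3 ≤ Y ^ (3 - 3 * δ) := by
    rw [hW, ← Real.rpow_natCast, ← Real.rpow_mul hY0.le]
    refine le_of_eq ?_
    congr 1
    push_cast
    ring
  have hW3' : W ^ 3 ≤ Y ^ (3 : ℝ) :=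
    hW3.trans (Real.rpow_le_rpow_of_exponent_le hY (by linarith))
  have hcard : (I.card : ℝ) ≤ C₆ * Y ^ (12 : ℝ) := by
    have h1 := hNI ρ A I hρ hA hI
    refine h1.trans (mul_le_mul_of_nonneg_left ?_ hC₆)
    have hA0 : 0 < A := by linarith
    calc A ^ 6 ≤ (Y ^ (1 + δ)) ^ 6 := pow_le_pow_left₀ hA0.le hAY 6
      _ = Y ^ ((1 + δ) * 6) := by
          rw [← Real.rpow_natCast, ← Real.rpow_mul hY0.le]
          norm_num
      _ ≤ Y ^ (12 : ℝ) := Real.rpow_le_rpow_of_exponent_le hY (by linarith)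
  have htail : W ^ 3 * (∑ x ∈ I, ∑ y ∈ I.filter (fun y => y.1 ≠ x.1), M * ρ * (C₁ * ρ * E)) ≤
      C₁ * C₆ ^ 2 * C₇ * Y ^ (3 + ε) * ρ * M := by
    have h0 : 0 ≤ M * ρ * (C₁ * ρ * E) := by positivity
    have h1 : ∑ x ∈ I, ∑ y ∈ I.filter (fun y => y.1 ≠ x.1), M * ρ * (C₁ * ρ * E) ≤
        (I.card : ℝ) * ((I.card : ℝ) * (M * ρ * (C₁ * ρ * E))) := by
      refine (Finset.sum_le_card_nsmul I _ ((I.card : ℝ) * (M * ρ * (C₁ * ρ * E))) ?_).trans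
        (le_of_eq (nsmul_eq_mul _ _))
      intro x _
      rw [Finset.sum_const, nsmul_eq_mul]
      refine mul_le_mul_of_nonneg_right ?_ h0
      exact_mod_cast Finset.card_filter_le _ _
    have h2 : (I.card : ℝ) * ((I.card : ℝ) * (M * ρ * (C₁ * ρ * E))) ≤
        (C₆ * Y ^ (12 : ℝ)) * ((C₆ * Y ^ (12 : ℝ)) * (M * ρ * (C₁ * ρ * E))) := by
      have hc0 : (0 : ℝ) ≤ I.card := Nat.cast_nonneg _
      refine mul_le_mul hcard (mul_le_mul_of_nonneg_right hcard h0) (by positivity)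
        (by positivity)
    have h3 : Y ^ (3 : ℝ) ≤ Y ^ (3 + ε) := Real.rpow_le_rpow_of_exponent_le hY (by linarith)
    have h4 : (C₆ * Y ^ (12 : ℝ)) * ((C₆ * Y ^ (12 : ℝ)) * (M * ρ * (C₁ * ρ * E))) ≤
        C₁ * C₆ ^ 2 * ρ * M * C₇ := by
      have h5 : Y ^ (12 : ℝ) * Y ^ (12 : ℝ) * ρ ≤ Y ^ (25 : ℝ) := by
        calc Y ^ (12 : ℝ) * Y ^ (12 : ℝ) * ρ ≤ Y ^ (12 : ℝ) * Y ^ (12 : ℝ) * Y :=
              mul_le_mul_of_nonneg_left hρY (by positivity)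
          _ = Y ^ (12 : ℝ) * Y ^ (12 : ℝ) * Y ^ (1 : ℝ) := by rw [Real.rpow_one]
          _ = Y ^ (25 : ℝ) := by
              rw [← Real.rpow_add hY0, ← Real.rpow_add hY0]; norm_num
      have h6 : Y ^ (12 : ℝ) * Y ^ (12 : ℝ) * ρ * E ≤ C₇ :=
        (mul_le_mul_of_nonneg_right h5 hE0.le).trans (hexp Y hY)
      calc (C₆ * Y ^ (12 : ℝ)) * ((C₆ * Y ^ (12 : ℝ)) * (M * ρ * (C₁ * ρ * E)))
          = C₁ * C₆ ^ 2 * ρ * M * (Y ^ (12 : ℝ) * Y ^ (12 : ℝ) * ρ * E) := by ring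
        _ ≤ C₁ * C₆ ^ 2 * ρ * M * C₇ := mul_le_mul_of_nonneg_left h6 (by positivity)
    calc W ^ 3 * (∑ x ∈ I, ∑ y ∈ I.filter (fun y => y.1 ≠ x.1), M * ρ * (C₁ * ρ * E))
        ≤ Y ^ (3 : ℝ) * (C₁ * C₆ ^ 2 * ρ * M * C₇) := by
          refine mul_le_mul hW3' ((h1.trans h2).trans h4) ?_ (by positivity)
          exact Finset.sum_nonneg fun x _ => Finset.sum_nonneg fun y _ => h0
      _ ≤ Y ^ (3 + ε) * (C₁ * C₆ ^ 2 * ρ * M * C₇) :=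
          mul_le_mul_of_nonneg_right h3 (by positivity)
      _ = C₁ * C₆ ^ 2 * C₇ * Y ^ (3 + ε) * ρ * M := by ring
  -- the main part
  have hmain : W ^ 3 * (∑ x ∈ I, ∑ y ∈ I.filter (fun y => y.1 ≠ x.1),
        ‖c x‖ * ‖c y‖ * nz ρ η (lam μ x - lam μ y + θ)) ≤
      24 * C₂ * CH ^ 2 * Y ^ (3 + ε) * ρ * M := by
    have hΛ1 : (1 : ℝ) ≤ 2 * Y ^ (3 * δ) := by
      have := hYd (3 * δ) (by positivity)
      linarith
    have h1 := hGRP ρ η (2 * Y ^ (3 * δ)) A M I (fun x => ‖c x‖) μ θ hρ hη0 hΛ1 hA hM hI hΛ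
      (fun x _ => norm_nonneg _) hc
    set B := I.image (fun x => (x.1, x.2.1.1, Nat.log 2 x.2.2.1)) with hB
    have hBp : ∀ a ∈ B, (0 < a.1.2 ∨ a.1 = (1, 0)) ∧ 1 ≤ a.2.1 ∧
        (a.2.1 : ℝ) * nr ρ a.1 ≤ 4 * 2 ^ a.2.2 ∧ (a.2.1 : ℝ) * 2 ^ a.2.2 ≤ A := by
      intro a ha
      obtain ⟨x, hx, rfl⟩ := Finset.mem_image.1 ha
      have hx' := hI x hx
      have hm : x.2.2.1 ≠ 0 := by have := hx'.j; omega
      have hlog1 : (2 : ℝ) ^ Nat.log 2 x.2.2.1 ≤ x.2.2.1 := by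
        exact_mod_cast Nat.pow_log_le_self 2 hm
      have hlog2 : (x.2.2.1 : ℝ) ≤ 2 * 2 ^ Nat.log 2 x.2.2.1 := by
        have := Nat.lt_pow_succ_log_self (b := 2) (by norm_num) x.2.2.1
        have h2 : x.2.2.1 ≤ 2 * 2 ^ Nat.log 2 x.2.2.1 := by
          rw [pow_succ] at this
          omega
        exact_mod_cast h2
      have hf := hf1 x hx
      refine ⟨hx'.sgn, by exact_mod_cast hf, ?_, ?_⟩
      · have := hx'.sh
        simp only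
        linarith
      · have := hx'.le
        simp only
        nlinarith
    have hwn : ∀ a : (ℤ × ℤ) × ℕ × ℕ, 0 ≤ hw ρ η a := by
      intro a
      unfold hw nr
      positivity
    have hL : 1 + η * A ≤ 2 * Y ^ (3 * δ) := by
      have := hYd (3 * δ) (by positivity)
      linarith
    have hlogA := log_pow_le δ hδ (by linarith) Y A hY hA hAY
    have hlog0 : 0 ≤ (1 + Real.log A) ^ 3 := by
      have := Real.log_nonneg hA
      positivity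
    have hT : (1 + η * A) * (1 + Real.log A) ^ 3 ≤ 2 * C₅ * Y ^ (4 * δ) := by
      calc (1 + η * A) * (1 + Real.log A) ^ 3 ≤ (2 * Y ^ (3 * δ)) * (C₅ * Y ^ δ) :=
            mul_le_mul hL hlogA hlog0 (by positivity)
        _ = 2 * C₅ * (Y ^ (3 * δ) * Y ^ δ) := by ring
        _ = 2 * C₅ * Y ^ (4 * δ) := by rw [← Real.rpow_add hY0]; congr 2; ring
    have hH0 : ∑ a ∈ B.filter (fun a => a.1 ≠ (1, 0)), hw ρ η a ≤ CH * Y ^ (4 * δ) := by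
      have h2 := hHG ρ A η (B.filter (fun a => a.1 ≠ (1, 0))) hρ hA hη0.le (by
        intro a ha
        obtain ⟨ha1, ha2⟩ := Finset.mem_filter.1 ha
        obtain ⟨h3, h4, h5, h6⟩ := hBp a ha1
        exact ⟨h3.resolve_right ha2, h4, h5, h6⟩)
      refine h2.trans ?_
      calc C₃ * (1 + η * A) * (1 + Real.log A) ^ 3
          = C₃ * ((1 + η * A) * (1 + Real.log A) ^ 3) := by ring
        _ ≤ C₃ * (2 * C₅ * Y ^ (4 * δ)) := mul_le_mul_of_nonneg_left hT hC₃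
        _ ≤ (C₃ + C₄) * (2 * C₅ * Y ^ (4 * δ)) :=
            mul_le_mul_of_nonneg_right (by linarith) (by positivity)
        _ = CH * Y ^ (4 * δ) := by rw [hCH]; ring
    have hH1' : ∑ a ∈ B.filter (fun a => a.1 = (1, 0)), hw ρ η a ≤ CH * Y ^ (4 * δ) * ρ := by
      have h2 := hH1 ρ A η (B.filter (fun a => a.1 = (1, 0))) hρ hA hη0.le (by
        intro a ha
        obtain ⟨ha1, ha2⟩ := Finset.mem_filter.1 ha
        obtain ⟨h3, h4, h5, h6⟩ := hBp a ha1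
        exact ⟨ha2, h4, h5, h6⟩)
      refine h2.trans ?_
      calc C₄ * ρ * (1 + η * A) * (1 + Real.log A) ^ 3
          = C₄ * ρ * ((1 + η * A) * (1 + Real.log A) ^ 3) := by ring
        _ ≤ C₄ * ρ * (2 * C₅ * Y ^ (4 * δ)) := mul_le_mul_of_nonneg_left hT (by positivity)
        _ ≤ (C₃ + C₄) * ρ * (2 * C₅ * Y ^ (4 * δ)) :=
            mul_le_mul_of_nonneg_right (mul_le_mul_of_nonneg_right (by linarith) hρ0.le)
              (by positivity)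
        _ = CH * Y ^ (4 * δ) * ρ := by rw [hCH]; ring
    have h2 := sum_pairs B (fun a => a.1) (1, 0) (hw ρ η) hwn _ _ hH0 hH1'
    have h3 : CH * Y ^ (4 * δ) * (CH * Y ^ (4 * δ) + 2 * (CH * Y ^ (4 * δ) * ρ)) ≤
        3 * CH ^ 2 * Y ^ (8 * δ) * ρ := by
      have e : Y ^ (4 * δ) * Y ^ (4 * δ) = Y ^ (8 * δ) := by
        rw [← Real.rpow_add hY0]; congr 1; ring
      have h4 : 0 ≤ CH ^ 2 * Y ^ (8 * δ) := by positivity
      calc CH * Y ^ (4 * δ) * (CH * Y ^ (4 * δ) + 2 * (CH * Y ^ (4 * δ) * ρ))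
          = CH ^ 2 * (Y ^ (4 * δ) * Y ^ (4 * δ)) * (1 + 2 * ρ) := by ring
        _ = CH ^ 2 * Y ^ (8 * δ) * (1 + 2 * ρ) := by rw [e]
        _ ≤ CH ^ 2 * Y ^ (8 * δ) * (3 * ρ) := mul_le_mul_of_nonneg_left (by linarith) h4
        _ = 3 * CH ^ 2 * Y ^ (8 * δ) * ρ := by ring
    have h4 := h2.trans h3
    have hnn : 0 ≤ ∑ x ∈ I, ∑ y ∈ I.filter (fun y => y.1 ≠ x.1),
        ‖c x‖ * ‖c y‖ * nz ρ η (lam μ x - lam μ y + θ) :=
      Finset.sum_nonneg fun x _ => Finset.sum_nonneg fun y _ => by positivity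
    have h5 : ∑ x ∈ I, ∑ y ∈ I.filter (fun y => y.1 ≠ x.1),
        ‖c x‖ * ‖c y‖ * nz ρ η (lam μ x - lam μ y + θ) ≤
        C₂ * (2 * Y ^ (3 * δ)) ^ 3 * M * (3 * CH ^ 2 * Y ^ (8 * δ) * ρ) :=
      h1.trans (mul_le_mul_of_nonneg_left h4 (by positivity))
    have h6 : (Y ^ (3 * δ)) ^ 3 = Y ^ (9 * δ) := by
      rw [← Real.rpow_natCast, ← Real.rpow_mul hY0.le]; congr 1; push_cast; ring
    calc W ^ 3 * (∑ x ∈ I, ∑ y ∈ I.filter (fun y => y.1 ≠ x.1),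
        ‖c x‖ * ‖c y‖ * nz ρ η (lam μ x - lam μ y + θ))
        ≤ Y ^ (3 - 3 * δ) * (C₂ * (2 * Y ^ (3 * δ)) ^ 3 * M * (3 * CH ^ 2 * Y ^ (8 * δ) * ρ)) :=
          mul_le_mul hW3 h5 hnn (by positivity)
      _ = 24 * C₂ * CH ^ 2 * (Y ^ (3 - 3 * δ) * (Y ^ (3 * δ)) ^ 3 * Y ^ (8 * δ)) * ρ * M := by
          ring
      _ = 24 * C₂ * CH ^ 2 * Y ^ (3 + 14 * δ) * ρ * M := by
          rw [h6, ← Real.rpow_add hY0, ← Real.rpow_add hY0]
          congr 4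
          ring
      _ ≤ 24 * C₂ * CH ^ 2 * Y ^ (3 + ε) * ρ * M := by
          refine mul_le_mul_of_nonneg_right (mul_le_mul_of_nonneg_right
            (mul_le_mul_of_nonneg_left ?_ (by positivity)) hρ0.le) hM
          exact Real.rpow_le_rpow_of_exponent_le hY (by linarith)
  calc W ^ 3 * (∑ x ∈ I, ∑ y ∈ I.filter (fun y => y.1 ≠ x.1),
        ‖c x‖ * ‖c y‖ * nz ρ η (lam μ x - lam μ y + θ)) +
      W ^ 3 * (∑ x ∈ I, ∑ y ∈ I.filter (fun y => y.1 ≠ x.1), M * ρ * (C₁ * ρ * E))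
      ≤ 24 * C₂ * CH ^ 2 * Y ^ (3 + ε) * ρ * M + C₁ * C₆ ^ 2 * C₇ * Y ^ (3 + ε) * ρ * M :=
        add_le_add hmain htail
    _ = (24 * C₂ * CH ^ 2 + C₁ * C₆ ^ 2 * C₇) * Y ^ (3 + ε) * ρ * M := by ring

end Pool.Agent.H58.DF
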